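import Pool.Agent.AN90.Group

/-!
Products of lamps at equally spaced sites: their values and their word length; the commutators
which give the windows.
-/

set_option autoImplicit false

namespace Pool.Agent.AN90

open Equiv
open scoped commutatorElement

/-- the product of the conjugates of `g ^ e w` by `T ^ (c + w L)`, `w < D` -/
def Pr (g : Perm X) (c L : ℤ) (e : ℕ → ℕ) : ℕ → Perm X
  | 0 => 1
  | (D + 1) => Pr g c L e D * (T ^ (c + D * L) * g ^ (e D) * (T ^ (c + D * L))⁻¹)

section Params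

variable {k q : ℕ → ℕ}

lemma Pr_len (g : Perm X) (hg : g ∈ gens k q) (c : ℤ) (L : ℕ) (e : ℕ → ℕ) (he : ∀ w, e w ≤ 1)
    (D : ℕ) : Len k q (Pr g c L e D * T ^ (c + D * L)) (c.natAbs + D * (L + 1)) := by
  induction D with
  | zero =>
    simp only [Pr, one_mul, Nat.cast_zero, zero_mul, add_zero]
    exact Len.T_zpow c
  | succ D ih =>
    have h1 : Pr g c L e (D + 1) * T ^ (c + ((D + 1 : ℕ) : ℤ) * L) =
        (Pr g c L e D * T ^ (c + D * L)) * g ^ (e D) * T ^ (L : ℤ) := by
      rw [Pr]
      have : c + ((D + 1 : ℕ) : ℤ) * L = (c + D * L) + L := by push_cast; ring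
      rw [this, zpow_add T (c + D * L) L]
      group
    rw [h1]
    have h2 : Len k q (g ^ (e D)) 1 := by
      have := he D
      interval_cases h : e D
      · simpa using Len.one 1
      · simpa using Len.gen hg
    have h3 : Len k q (T ^ (L : ℤ)) L := by simpa using Len.T_zpow (k := k) (q := q) (L : ℤ)
    refine ((ih.mul h2).mul h3).mono ?_
    have : (D + 1) * (L + 1) = D * (L + 1) + L + 1 := by ring
    omega

lemma Pr_len' (g : Perm X) (hg : g ∈ gens k q) (c : ℤ) (L : ℕ) (e : ℕ → ℕ) (he : ∀ w, e w ≤ 1)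
    (D : ℕ) : Len k q (Pr g c L e D) (c.natAbs + D * (L + 1) + (c + D * L).natAbs) := by
  have h := (Pr_len g hg c L e he D).mul (Len.T_zpow (c + D * L)).inv
  rwa [mul_inv_cancel_right] at h

lemma Pr_lamp (R : ℕ → Perm ℤ) (C : ℕ → ℤ) (c L : ℤ) (e : ℕ → ℕ) (D : ℕ) :
    Pr (Lm (fun s j => if (2 * (k s : ℤ)) ∣ j - C s then R s else 1)) c L e D =
      Lm (fun s j => (R s) ^ (∑ w ∈ Finset.range D,
        if (2 * (k s : ℤ)) ∣ j - (c + w * L) - C s then e w else 0)) := by
  induction D with
  | zero =>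
    simp only [Pr, Finset.range_zero, Finset.sum_empty, pow_zero]
    exact (map_one Lm).symm
  | succ D ih =>
    rw [Pr, ih, ← map_pow, T_conj, ← map_mul]
    congr 1
    funext s j
    simp only [Pi.mul_apply, Pi.pow_apply, Finset.sum_range_succ, pow_add]
    congr 1
    split_ifs with h
    · rfl
    · simp

/-- lamps of the first kind -/
lemma Pr_ga (c L : ℤ) (e : ℕ → ℕ) (D : ℕ) :
    Pr (ga k q) c L e D = Lm (fun s j => (alpha (q s)) ^ (∑ w ∈ Finset.range D,
        if (2 * (k s : ℤ)) ∣ j - (c + w * L) then e w else 0)) := by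
  have h : ga k q = Lm (fun s j => if (2 * (k s : ℤ)) ∣ j - 0 then alpha (q s) else 1) := by
    simp only [sub_zero]; rfl
  rw [h, Pr_lamp (k := k) (fun s => alpha (q s)) (fun _ => 0)]
  simp only [sub_zero]

/-- lamps of the second kind -/
lemma Pr_gb (c L : ℤ) (e : ℕ → ℕ) (D : ℕ) :
    Pr (gb k q) c L e D = Lm (fun s j => (beta (q s)) ^ (∑ w ∈ Finset.range D,
        if (2 * (k s : ℤ)) ∣ j - (c + w * L) - k s then e w else 0)) :=
  Pr_lamp (k := k) (fun s => beta (q s)) (fun s => (k s : ℤ)) c L e D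

/-- The window elements: rotations by `4 x_w` at the sites `w L`, `w < D`, of the factor `s0`. -/
def win (k q : ℕ → ℕ) (s0 : ℕ) (L D : ℕ) (x : ℕ → ℤ) : Perm X :=
  Lm (fun s j => if s = s0 then (gam (q s)) ^ (∑ w ∈ Finset.range D,
    if (2 * (k s : ℤ)) ∣ j - w * L then x w else 0) else 1)

lemma win_add (s0 L D : ℕ) (x y : ℕ → ℤ) :
    win k q s0 L D (fun w => x w + y w) = win k q s0 L D x * win k q s0 L D y := by
  rw [win, win, win, ← map_mul]
  congr 1
  funext s j
  simp only [Pi.mul_apply]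
  split_ifs with h
  · rw [← zpow_add, ← Finset.sum_add_distrib]
    congr 1
    apply Finset.sum_congr rfl
    intro w _
    split_ifs <;> simp
  · simp

lemma win_neg (s0 L D : ℕ) (x : ℕ → ℤ) :
    win k q s0 L D (fun w => - x w) = (win k q s0 L D x)⁻¹ := by
  rw [eq_inv_iff_mul_eq_one, ← win_add, win, ← map_one Lm]
  congr 1
  funext s j
  simp

/-- hypotheses on the scales below and above `s0` -/
structure Scales (k : ℕ → ℕ) (s0 L D : ℕ) : Prop where
  pos : ∀ s, 0 < k s
  below : ∀ s, s < s0 → (2 * k s) ∣ L ∧ (2 * k s) ∣ k s0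
  fits : D * L ≤ k s0
  Lpos : 0 < L
  above : ∀ s, s0 < s → 2 * k s0 ≤ k s

lemma unique_site {s0 L D : ℕ} (h : Scales k s0 L D) (j : ℤ) {w w' : ℕ} (hw : w < D) (hw' : w' < D)
    (h1 : (2 * (k s0 : ℤ)) ∣ j - w * L) (h2 : (2 * (k s0 : ℤ)) ∣ j - w' * L) : w = w' := by
  have h3 : (2 * (k s0 : ℤ)) ∣ ((w : ℤ) - w') * L := by
    have e1 : ((w : ℤ) - w') * L = (j - w' * L) - (j - w * L) := by ring
    rw [e1]
    exact dvd_sub h2 h1
  have hfit : (D : ℤ) * L ≤ k s0 := by exact_mod_cast h.fits
  have hL : (0 : ℤ) < L := by exact_mod_cast h.Lpos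
  have hk : (0 : ℤ) < k s0 := by exact_mod_cast h.pos s0
  have h4 : ((w : ℤ) - w') * L = 0 := by
    apply Int.eq_zero_of_abs_lt_dvd h3
    rw [abs_mul, abs_of_pos hL]
    have h5 : |(w : ℤ) - w'| ≤ D := by rw [abs_le]; constructor <;> omega
    have h6 : |(w : ℤ) - w'| * L ≤ D * L := mul_le_mul_of_nonneg_right h5 hL.le
    linarith
  rcases mul_eq_zero.mp h4 with h5 | h5
  · omega
  · omega

/-- the commutator of lamps of the two kinds is a window element -/
lemma comm_eq_win {s0 L D : ℕ} (h : Scales k s0 L D) (e : ℕ → ℕ) (he : ∀ w, e w ≤ 1) :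
    ⁅Pr (ga k q) 0 L e D, Pr (gb k q) (-(k s0 : ℤ)) L e D⁆ =
      win k q s0 L D (fun w => (e w : ℤ)) := by
  have hcomm : ∀ φ ψ : ℕ → ℤ → Perm ℤ, ⁅Lm φ, Lm ψ⁆ = Lm (fun s j => ⁅φ s j, ψ s j⁆) := by
    intro φ ψ
    rw [← map_commutatorElement]
    rfl
  rw [Pr_ga, Pr_gb, hcomm, win]
  congr 1
  funext s j
  by_cases hs : s = s0
  · subst hs
    rw [if_pos rfl]
    have h1 : ∀ w : ℕ, (j - (0 + (w : ℤ) * L)) = j - w * L := fun w => by ring
    have h2 : ∀ w : ℕ, (j - (-(k s : ℤ) + (w : ℤ) * L) - k s) = j - w * L := fun w => by ring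
    simp only [h1, h2]
    have hsum : (∑ w ∈ Finset.range D, if (2 * (k s : ℤ)) ∣ j - w * L then e w else 0) ≤ 1 := by
      by_cases hex : ∃ w < D, (2 * (k s : ℤ)) ∣ j - w * L
      · obtain ⟨w, hw, hdw⟩ := hex
        rw [Finset.sum_eq_single w]
        · rw [if_pos hdw]; exact he w
        · intro w' hw' hne
          rw [if_neg]
          intro hd
          exact hne (unique_site h j (Finset.mem_range.mp hw') hw hd hdw)
        · intro hn; exact absurd (Finset.mem_range.mpr hw) hn
      · rw [Finset.sum_eq_zero]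
        · exact Nat.zero_le _
        · intro w hw
          rw [if_neg]
          intro hd
          exact hex ⟨w, Finset.mem_range.mp hw, hd⟩
    have hcast : (∑ w ∈ Finset.range D, if (2 * (k s : ℤ)) ∣ j - w * L then ((e w : ℕ) : ℤ) else 0) =
        ((∑ w ∈ Finset.range D, if (2 * (k s : ℤ)) ∣ j - w * L then e w else 0 : ℕ) : ℤ) := by
      push_cast
      rfl
    rw [hcast, zpow_natCast]
    interval_cases hh : (∑ w ∈ Finset.range D, if (2 * (k s : ℤ)) ∣ j - w * L then e w else 0)
    · simp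
    · simp only [pow_one]
      rfl
  · rw [if_neg hs]
    -- one of the two exponents vanishes
    have key : (∀ w < D, ¬ (2 * (k s : ℤ)) ∣ j - (0 + (w : ℤ) * L)) ∨
        (∀ w < D, ¬ (2 * (k s : ℤ)) ∣ j - (-(k s0 : ℤ) + (w : ℤ) * L) - k s) := by
      by_contra hcon
      push Not at hcon
      obtain ⟨⟨w, hw, hdw⟩, ⟨w', hw', hdw'⟩⟩ := hcon
      have hk : (0 : ℤ) < k s := by exact_mod_cast h.pos s
      have hk0 : (0 : ℤ) < k s0 := by exact_mod_cast h.pos s0
      have hdiff : (2 * (k s : ℤ)) ∣ ((w : ℤ) - w') * L + k s0 - k s := by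
        have e1 : ((w : ℤ) - w') * L + k s0 - k s =
          (j - (-(k s0 : ℤ) + (w' : ℤ) * L) - k s) - (j - (0 + (w : ℤ) * L)) := by ring
        rw [e1]
        exact dvd_sub hdw' hdw
      rcases lt_or_gt_of_ne hs with hlt | hgt
      · obtain ⟨hb1, hb2⟩ := h.below s hlt
        have hb1' : (2 * (k s : ℤ)) ∣ (L : ℤ) := by exact_mod_cast hb1
        have hb2' : (2 * (k s : ℤ)) ∣ (k s0 : ℤ) := by exact_mod_cast hb2
        have h3 : (2 * (k s : ℤ)) ∣ (k s : ℤ) := by
          have e1 : (k s : ℤ) = (((w : ℤ) - w') * L + k s0) - (((w : ℤ) - w') * L + k s0 - k s) := by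
            ring
          have h4 := dvd_sub (dvd_add (Dvd.dvd.mul_left hb1' ((w : ℤ) - w')) hb2') hdiff
          rwa [← e1] at h4
        have := Int.le_of_dvd hk h3
        linarith
      · have ha : 2 * (k s0 : ℤ) ≤ k s := by exact_mod_cast h.above s hgt
        have hfit : (D : ℤ) * L ≤ k s0 := by exact_mod_cast h.fits
        have hL : (0 : ℤ) < L := by exact_mod_cast h.Lpos
        have h5 : |(w : ℤ) - w'| ≤ (D : ℤ) - 1 := by rw [abs_le]; constructor <;> omega
        have h6 : |((w : ℤ) - w') * L| ≤ ((D : ℤ) - 1) * L := by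
          rw [abs_mul, abs_of_pos hL]
          exact mul_le_mul_of_nonneg_right h5 hL.le
        have h7 := abs_le.mp h6
        have h8 : ((D : ℤ) - 1) * L < k s0 := by nlinarith
        have h9 : ((w : ℤ) - w') * L + k s0 - k s = 0 := by
          apply Int.eq_zero_of_abs_lt_dvd hdiff
          rw [abs_lt]
          constructor <;> linarith
        linarith
    rcases key with h1 | h1
    · have : (∑ w ∈ Finset.range D, if (2 * (k s : ℤ)) ∣ j - (0 + (w : ℤ) * L) then e w else 0) = 0 :=
        Finset.sum_eq_zero (fun w hw => if_neg (h1 w (Finset.mem_range.mp hw)))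
      rw [this, pow_zero, commutatorElement_one_left]
    · have : (∑ w ∈ Finset.range D,
          if (2 * (k s : ℤ)) ∣ j - (-(k s0 : ℤ) + (w : ℤ) * L) - k s then e w else 0) = 0 :=
        Finset.sum_eq_zero (fun w hw => if_neg (h1 w (Finset.mem_range.mp hw)))
      rw [this, pow_zero, commutatorElement_one_right]

/-- word length of a 0-1 window element -/
lemma win_len_one {s0 L D : ℕ} (h : Scales k s0 L D) (e : ℕ → ℕ) (he : ∀ w, e w ≤ 1) :
    Len k q (win k q s0 L D (fun w => (e w : ℤ))) (16 * k s0) := by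
  rw [← comm_eq_win h e he, commutatorElement_def]
  have hfit := h.fits
  have hDk : D ≤ k s0 := (Nat.le_mul_of_pos_right D h.Lpos).trans hfit
  have h1 : Len k q (Pr (ga k q) 0 L e D) (3 * k s0) := by
    refine (Pr_len' (ga k q) (by simp [gens]) 0 L e he D).mono ?_
    have : (0 + (D : ℤ) * L).natAbs = D * L := by
      rw [zero_add]; exact_mod_cast Int.natAbs_natCast (D * L)
    rw [this, Int.natAbs_zero, mul_add]
    omega
  have h2 : Len k q (Pr (gb k q) (-(k s0 : ℤ)) L e D) (5 * k s0) := by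
    refine (Pr_len' (gb k q) (by simp [gens]) (-(k s0 : ℤ)) L e he D).mono ?_
    have h3 : (-(k s0 : ℤ)).natAbs = k s0 := by simp
    have h4 : (-(k s0 : ℤ) + (D : ℤ) * L).natAbs ≤ k s0 + D * L := by
      refine (Int.natAbs_add_le _ _).trans ?_
      rw [h3]
      have : ((D : ℤ) * L).natAbs = D * L := by exact_mod_cast Int.natAbs_natCast (D * L)
      rw [this]
    rw [h3, mul_add]
    omega
  refine (((h1.mul h2).mul h1.inv).mul h2.inv).mono ?_
  omega

/-- word length of a window element in terms of the sup norm -/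
lemma win_len {s0 L D : ℕ} (h : Scales k s0 L D) (m : ℕ) (x : ℕ → ℤ) (hx : ∀ w, |x w| ≤ m) :
    Len k q (win k q s0 L D x) (32 * k s0 * m) := by
  induction m generalizing x with
  | zero =>
    have h0 : x = fun w => (((fun _ => 0 : ℕ → ℕ) w : ℕ) : ℤ) := by
      funext w
      have := hx w
      simpa using this
    have h1 : win k q s0 L D x = 1 := by
      rw [h0, win, ← map_one Lm]
      congr 1
      funext s j
      simp
    rw [h1]
    exact Len.one _
  | succ m ih =>
    set e1 : ℕ → ℕ := fun w => if 0 < x w then 1 else 0 with he1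
    set e2 : ℕ → ℕ := fun w => if x w < 0 then 1 else 0 with he2
    set y : ℕ → ℤ := fun w => x w - e1 w + e2 w with hy
    have hy' : ∀ w, |y w| ≤ m := by
      intro w
      have := abs_le.mp (hx w)
      push_cast at this
      simp only [hy, he1, he2]
      rw [abs_le]
      split_ifs <;> push_cast <;> constructor <;> omega
    have hdec : x = fun w => (y w + (e1 w : ℤ)) + (- (e2 w : ℤ)) := by
      funext w
      simp only [hy]
      ring
    rw [hdec, win_add, win_add, win_neg]
    have h1 := win_len_one (q := q) h e1 (fun w => by simp only [he1]; split_ifs <;> omega)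
    have h2 := win_len_one (q := q) h e2 (fun w => by simp only [he2]; split_ifs <;> omega)
    refine (((ih y hy').mul h1).mul h2.inv).mono ?_
    have : 32 * k s0 * (m + 1) = 32 * k s0 * m + 32 * k s0 := by ring
    omega

end Params

end Pool.Agent.AN90
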