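import Pool.Agent.AN90.Growth

/-!
Foelner sets.
-/

set_option autoImplicit false

namespace Pool.Agent.AN90

open Equiv

/-- the homomorphism from the group of signs given by an involution -/
def invHom (g : Perm ℤ) (hg : g * g = 1) : ℤˣ →* Perm ℤ where
  toFun u := if u = 1 then 1 else g
  map_one' := if_pos rfl
  map_mul' u v := by
    rcases Int.units_eq_one_or u with rfl | rfl <;> rcases Int.units_eq_one_or v with rfl | rfl <;>
      simp [hg]

lemma invHom_one (g : Perm ℤ) (hg : g * g = 1) : invHom g hg 1 = 1 := map_one _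

lemma invHom_neg_one (g : Perm ℤ) (hg : g * g = 1) : invHom g hg (-1) = g := by
  have : (-1 : ℤˣ) ≠ 1 := by decide
  simp [invHom, this]

/-- permutations of the path `{0,...,2Q-1}` -/
def pathPerm (Q : ℕ) : Subgroup (Perm ℤ) where
  carrier := {σ | ∀ v, ¬ (0 ≤ v ∧ v < 2 * (Q : ℤ)) → σ v = v}
  one_mem' := fun v _ => rfl
  mul_mem' := by
    intro σ τ hσ hτ v hv
    rw [Perm.mul_apply, hτ v hv, hσ v hv]
  inv_mem' := by
    intro σ hσ v hv
    rw [Perm.inv_eq_iff_eq, hσ v hv]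

instance (Q : ℕ) : Finite (pathPerm Q) := by
  have h1 : Finite {v : ℤ // 0 ≤ v ∧ v < 2 * (Q : ℤ)} :=
    Set.Finite.to_subtype (Set.finite_Ico (0 : ℤ) (2 * (Q : ℤ)))
  have e := Equiv.Perm.subtypeEquivSubtypePerm (fun v : ℤ => 0 ≤ v ∧ v < 2 * (Q : ℤ))
  exact Finite.of_equiv _ e

lemma alpha_mem (Q : ℕ) : alpha Q ∈ pathPerm Q := by
  intro v hv
  rw [alpha_apply]
  exact if_neg hv

lemma beta_mem (Q : ℕ) : beta Q ∈ pathPerm Q := by
  intro v hv
  rw [beta_apply]
  exact if_neg (fun h => hv (by omega))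

section Params

variable (k q : ℕ → ℕ)

/-- the finite group which parametrizes the lamp configurations at scale `N` -/
abbrev Src (S N : ℕ) : Type :=
  ((i : Fin S) → (ZMod (2 * k i) → pathPerm (q i))) × (Fin N → ℤˣ) × (Fin N → ℤˣ)

/-- the parametrization at one site -/
noncomputable def thetaPt (S N : ℕ) (s : ℕ) (j : ℤ) : Src k q S N →* Perm ℤ :=
  if hs : s < S then
    (pathPerm (q s)).subtype.comp ((Pi.evalMonoidHom (fun _ : ZMod (2 * k s) => pathPerm (q s))
      (j : ZMod (2 * k s))).comp ((Pi.evalMonoidHom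
        (fun i : Fin S => (ZMod (2 * k i) → pathPerm (q i))) ⟨s, hs⟩).comp (MonoidHom.fst _ _)))
  else if h1 : (j % (2 * (k s : ℤ))).toNat < N then
    (invHom (alpha (q s)) (alpha_mul_self _)).comp ((Pi.evalMonoidHom (fun _ : Fin N => ℤˣ)
      ⟨_, h1⟩).comp ((MonoidHom.fst _ _).comp (MonoidHom.snd _ _)))
  else if h2 : ((j - k s) % (2 * (k s : ℤ))).toNat < N then
    (invHom (beta (q s)) (beta_mul_self _)).comp ((Pi.evalMonoidHom (fun _ : Fin N => ℤˣ)
      ⟨_, h2⟩).comp ((MonoidHom.snd _ _).comp (MonoidHom.snd _ _)))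
  else 1

/-- the parametrization -/
noncomputable def Theta (S N : ℕ) : Src k q S N →* (ℕ → ℤ → Perm ℤ) where
  toFun u s j := thetaPt k q S N s j u
  map_one' := by funext s j; exact map_one _
  map_mul' u v := by funext s j; exact map_mul _ u v

variable {k q}

lemma Theta_apply {S N : ℕ} (u : Src k q S N) (s : ℕ) (j : ℤ) :
    Theta k q S N u s j = thetaPt k q S N s j u := rfl

lemma Theta_lt {S N : ℕ} (u : Src k q S N) {s : ℕ} (hs : s < S) (j : ℤ) :
    Theta k q S N u s j = (u.1 ⟨s, hs⟩ (j : ZMod (2 * k s)) : Perm ℤ) := by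
  rw [Theta_apply, thetaPt, dif_pos hs]
  rfl

lemma Theta_a {S N : ℕ} (u : Src k q S N) {s : ℕ} (hs : ¬ s < S) (j : ℤ)
    (h1 : (j % (2 * (k s : ℤ))).toNat < N) :
    Theta k q S N u s j = invHom (alpha (q s)) (alpha_mul_self _) (u.2.1 ⟨_, h1⟩) := by
  rw [Theta_apply, thetaPt, dif_neg hs, dif_pos h1]
  rfl

lemma Theta_b {S N : ℕ} (u : Src k q S N) {s : ℕ} (hs : ¬ s < S) (j : ℤ)
    (h1 : ¬ (j % (2 * (k s : ℤ))).toNat < N) (h2 : ((j - k s) % (2 * (k s : ℤ))).toNat < N) :
    Theta k q S N u s j = invHom (beta (q s)) (beta_mul_self _) (u.2.2 ⟨_, h2⟩) := by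
  rw [Theta_apply, thetaPt, dif_neg hs, dif_neg h1, dif_pos h2]
  rfl

lemma Theta_none {S N : ℕ} (u : Src k q S N) {s : ℕ} (hs : ¬ s < S) (j : ℤ)
    (h1 : ¬ (j % (2 * (k s : ℤ))).toNat < N) (h2 : ¬ ((j - k s) % (2 * (k s : ℤ))).toNat < N) :
    Theta k q S N u s j = 1 := by
  rw [Theta_apply, thetaPt, dif_neg hs, dif_neg h1, dif_neg h2]
  rfl

lemma dvd_sub_iff {K : ℕ} (hK : 0 < K) (j : ℤ) (p : ℕ) (hp : p < 2 * K) :
    (2 * (K : ℤ)) ∣ j - p ↔ (j % (2 * (K : ℤ))).toNat = p := by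
  have h0 := Int.emod_nonneg j (show (2 * (K : ℤ)) ≠ 0 by omega)
  have h1 := Int.emod_lt_of_pos j (show (0 : ℤ) < 2 * (K : ℤ) by omega)
  have h2 : (p : ℤ) % (2 * (K : ℤ)) = p := Int.emod_eq_of_lt (by omega) (by omega)
  constructor
  · intro h
    have h3 : j % (2 * (K : ℤ)) = p := by
      rw [← h2]
      exact (Int.emod_eq_emod_iff_emod_sub_eq_zero).mpr (Int.emod_eq_zero_of_dvd h)
    rw [h3]; simp
  · intro h
    have h3 : j % (2 * (K : ℤ)) = p := by omega
    apply Int.dvd_of_emod_eq_zero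
    rw [← Int.emod_eq_emod_iff_emod_sub_eq_zero, h3, h2]

lemma zmod_eq_iff {K : ℕ} (j : ℤ) (p : ℕ) :
    ((j : ZMod (2 * K)) = (p : ZMod (2 * K))) ↔ (2 * (K : ℤ)) ∣ j - p := by
  have h1 : ((p : ℕ) : ZMod (2 * K)) = ((p : ℤ) : ZMod (2 * K)) := by push_cast; rfl
  rw [h1, ZMod.intCast_eq_intCast_iff_dvd_sub, ← dvd_neg, neg_sub]
  push_cast
  rfl

lemma conj_a_mem {S N : ℕ} (hk : ∀ s, 0 < k s) (hS : ∀ s, ¬ s < S → N ≤ k s) (p : ℕ) (hp : p < N) :
    T ^ (p : ℤ) * ga k q * (T ^ (p : ℤ))⁻¹ ∈ (Lm.comp (Theta k q S N)).range := by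
  classical
  refine ⟨(fun i z => if z = (p : ZMod (2 * k i)) then ⟨alpha (q i), alpha_mem _⟩ else 1,
    fun i => if (i : ℕ) = p then -1 else 1, fun _ => 1), ?_⟩
  rw [ga, T_conj, MonoidHom.comp_apply]
  congr 1
  funext s j
  by_cases hs : s < S
  · rw [Theta_lt _ hs]
    by_cases hd : (2 * (k s : ℤ)) ∣ j - p
    · rw [if_pos hd]
      simp only
      rw [if_pos ((zmod_eq_iff j p).mpr hd)]
    · rw [if_neg hd]
      simp only
      rw [if_neg (fun h => hd ((zmod_eq_iff j p).mp h))]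
      rfl
  · have hN := hS s hs
    have hpk : p < 2 * k s := by omega
    by_cases h1 : (j % (2 * (k s : ℤ))).toNat < N
    · rw [Theta_a _ hs j h1]
      simp only
      by_cases h2 : (j % (2 * (k s : ℤ))).toNat = p
      · rw [if_pos h2, if_pos ((dvd_sub_iff (hk s) j p hpk).mpr h2), invHom_neg_one]
      · rw [if_neg h2, if_neg (fun h => h2 ((dvd_sub_iff (hk s) j p hpk).mp h)), invHom_one]
    · have h3 : ¬ (2 * (k s : ℤ)) ∣ j - p := by
        intro h
        rw [dvd_sub_iff (hk s) j p hpk] at h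
        omega
      rw [if_neg h3]
      by_cases h2 : ((j - k s) % (2 * (k s : ℤ))).toNat < N
      · rw [Theta_b _ hs j h1 h2]
        exact invHom_one _ _
      · exact Theta_none _ hs j h1 h2

lemma conj_b_mem {S N : ℕ} (hk : ∀ s, 0 < k s) (hS : ∀ s, ¬ s < S → N ≤ k s) (p : ℕ) (hp : p < N) :
    T ^ (p : ℤ) * gb k q * (T ^ (p : ℤ))⁻¹ ∈ (Lm.comp (Theta k q S N)).range := by
  classical
  refine ⟨(fun i z => if z = ((p + k i : ℕ) : ZMod (2 * k i)) then ⟨beta (q i), beta_mem _⟩ else 1,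
    fun _ => 1, fun i => if (i : ℕ) = p then -1 else 1), ?_⟩
  rw [gb, T_conj, MonoidHom.comp_apply]
  congr 1
  funext s j
  have hcomm : j - (p : ℤ) - (k s : ℤ) = j - ((p + k s : ℕ) : ℤ) := by push_cast; ring
  have hcomm' : j - (p : ℤ) - (k s : ℤ) = (j - k s) - p := by ring
  by_cases hs : s < S
  · rw [Theta_lt _ hs]
    by_cases hd : (2 * (k s : ℤ)) ∣ j - p - k s
    · rw [if_pos hd]
      simp only
      rw [if_pos ((zmod_eq_iff j (p + k s)).mpr (hcomm ▸ hd))]
    · rw [if_neg hd]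
      simp only
      rw [if_neg (fun h => hd (hcomm ▸ (zmod_eq_iff j (p + k s)).mp h))]
      rfl
  · have hN := hS s hs
    have hpk : p < 2 * k s := by omega
    by_cases h1 : (j % (2 * (k s : ℤ))).toNat < N
    · rw [Theta_a _ hs j h1]
      have h3 : ¬ (2 * (k s : ℤ)) ∣ j - p - k s := by
        intro h
        rw [hcomm, dvd_sub_iff (hk s) j (p + k s) (by omega)] at h
        omega
      rw [if_neg h3]
      exact invHom_one _ _
    · by_cases h2 : ((j - k s) % (2 * (k s : ℤ))).toNat < N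
      · rw [Theta_b _ hs j h1 h2]
        simp only
        by_cases h3 : ((j - k s) % (2 * (k s : ℤ))).toNat = p
        · rw [if_pos h3, invHom_neg_one,
            if_pos (hcomm' ▸ (dvd_sub_iff (hk s) (j - k s) p hpk).mpr h3)]
        · rw [if_neg h3, invHom_one, if_neg]
          intro h
          rw [hcomm', dvd_sub_iff (hk s) (j - k s) p hpk] at h
          exact h3 h
      · rw [Theta_none _ hs j h1 h2, if_neg]
        intro h
        rw [hcomm', dvd_sub_iff (hk s) (j - k s) p hpk] at h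
        omega

/-- number of permutations of the path -/
noncomputable def pc (Q : ℕ) : ℕ := Nat.card (pathPerm Q)

lemma pc_pos (Q : ℕ) : 0 < pc Q := Nat.card_pos

lemma card_Src (hk : ∀ s, 0 < k s) (S N : ℕ) : Finite (Src k q S N) ∧
    Nat.card (Src k q S N) = (∏ i : Fin S, (pc (q i)) ^ (2 * k i)) * 4 ^ N := by
  have hfin : ∀ i : ℕ, Finite (ZMod (2 * k i)) := by
    intro i
    have : NeZero (2 * k i) := ⟨by have := hk i; omega⟩
    infer_instance
  have h1 : ∀ i : Fin S, Finite (ZMod (2 * k i) → pathPerm (q i)) := fun i => by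
    have := hfin i
    infer_instance
  refine ⟨inferInstance, ?_⟩
  rw [Nat.card_prod, Nat.card_prod, Nat.card_pi]
  have h2 : ∀ i : Fin S, Nat.card (ZMod (2 * k i) → pathPerm (q i)) = pc (q i) ^ (2 * k i) := by
    intro i
    have := hfin i
    rw [Nat.card_fun, Nat.card_zmod]
    rfl
  have h3 : Nat.card (Fin N → ℤˣ) = 2 ^ N := by
    rw [Nat.card_fun, Nat.card_eq_fintype_card, Nat.card_eq_fintype_card]
    simp
  rw [h3, Finset.prod_congr rfl (fun i _ => h2 i), ← mul_pow, show 2 * 2 = 4 from rfl]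

theorem folner_exists (hk : ∀ s, 0 < k s) (S n : ℕ) (hn : 1 ≤ n)
    (hS : ∀ s, ¬ s < S → 2 * n ≤ k s) :
    ∃ F : Finset (GG k q), F.Nonempty ∧
      (∀ [DecidablePred (fun g : GG k q => ∃ s ∈ SS k q, g * s ∉ F ∨ g * s⁻¹ ∉ F)],
        n * (F.filter (fun g => ∃ s ∈ SS k q, g * s ∉ F ∨ g * s⁻¹ ∉ F)).card ≤ F.card) ∧
      F.card ≤ 2 * n * ((∏ i : Fin S, (pc (q i)) ^ (2 * k i)) * 4 ^ (2 * n)) := by
  classical
  obtain ⟨hfin, hcard⟩ := card_Src (q := q) hk S (2 * n)
  have := hfin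
  set R := (Lm.comp (Theta k q S (2 * n))).range with hR
  have : Finite R := by
    rw [hR]
    exact Finite.of_surjective _ (MonoidHom.rangeRestrict_surjective _)
  set H : Subgroup (GG k q) := R.comap (GG k q).subtype with hH
  have hinj : Function.Injective (fun h : H => (⟨((h : GG k q) : Perm X), h.2⟩ : R)) := by
    intro a b hab
    have := congrArg (fun r : R => (r : Perm X)) hab
    exact Subtype.ext (Subtype.ext this)
  have : Finite H := Finite.of_injective _ hinj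
  have hHcard : Nat.card H ≤ (∏ i : Fin S, (pc (q i)) ^ (2 * k i)) * 4 ^ (2 * n) := by
    rw [← hcard]
    refine (Nat.card_le_card_of_injective _ hinj).trans ?_
    exact Nat.card_le_card_of_surjective _ (MonoidHom.rangeRestrict_surjective
      (Lm.comp (Theta k q S (2 * n))))
  have hpow : ∀ p : ℕ, ((((⟨T, T_mem k q⟩ : GG k q) ^ p : GG k q)) : Perm X) = T ^ (p : ℤ) := by
    intro p; simp
  obtain ⟨F, hF1, hF2, hF3⟩ := folner_of_subgroup (SS k q) (⟨T, T_mem k q⟩ : GG k q) H n hn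
    (by
      intro s hs
      rcases (mem_SS k q s).mp hs with h | h | h
      · exact Or.inl (Subtype.ext h)
      · right
        intro p hp
        rw [hH, Subgroup.mem_comap]
        have h2 := conj_a_mem (q := q) hk hS p hp
        have h3 : (GG k q).subtype ((⟨T, T_mem k q⟩ : GG k q) ^ p * s * ((⟨T, T_mem k q⟩ : GG k q) ^ p)⁻¹) =
            T ^ (p : ℤ) * ga k q * (T ^ (p : ℤ))⁻¹ := by
          rw [map_mul, map_mul, map_inv, Subgroup.subtype_apply, Subgroup.subtype_apply, hpow, h]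
        rw [h3]
        exact h2
      · right
        intro p hp
        rw [hH, Subgroup.mem_comap]
        have h' : (s : Perm X) = gb k q := h
        have h2 := conj_b_mem (q := q) hk hS p hp
        have h3 : (GG k q).subtype ((⟨T, T_mem k q⟩ : GG k q) ^ p * s * ((⟨T, T_mem k q⟩ : GG k q) ^ p)⁻¹) =
            T ^ (p : ℤ) * gb k q * (T ^ (p : ℤ))⁻¹ := by
          rw [map_mul, map_mul, map_inv, Subgroup.subtype_apply, Subgroup.subtype_apply, hpow, h']
        rw [h3]
        exact h2)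
    (by
      intro p hp hmem
      rw [hH, Subgroup.mem_comap] at hmem
      obtain ⟨u, hu⟩ := hmem
      have h1 : T ^ (p : ℤ) = Lm (Theta k q S (2 * n) u) := by
        rw [← hpow p]
        exact hu.symm
      have h2 := congrArg (fun g : Perm X => (g (0, 0, 0)).2.1) h1
      simp only [T_zpow_apply, Lm_apply] at h2
      omega)
  refine ⟨F, hF1, ?_, ?_⟩
  · intro _
    convert hF2
  · rw [hF3]
    exact Nat.mul_le_mul_left _ hHcard

end Params

end Pool.Agent.AN90
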