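import Mathlib

/-!
A counting form of the Lebesgue covering lemma for grids of large dimension: if a grid
`{0,...,m}^D` is coloured with `d + 1` colours, the points of each colour being split into pieces of
bounded size which are not adjacent, then `D` is bounded in terms of `d` and the size of the pieces.
-/

set_option autoImplicit false

namespace Pool.Agent.AN90

open Finset

section Step

variable {D : ℕ}

/-- thickening of a finite set in the direction `i` -/
def stepSet (i : Fin D) (B : Finset (Fin D → ℤ)) : Finset (Fin D → ℤ) :=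
  B ∪ B.image (fun x => x + Pi.single i 1)

lemma step_card (i : Fin D) (B : Finset (Fin D → ℤ)) (L : ℕ)
    (h : ∀ x ∈ B, ∀ y ∈ B, y i - x i < (L : ℤ)) :
    B.card * (L + 1) ≤ (stepSet i B).card * L := by
  classical
  set e : Fin D → ℤ := Pi.single i 1 with he
  have hei : e i = 1 := by simp [he]
  set T := B.filter (fun x => x + e ∉ B) with hT
  -- the thickening has at least `card T` new elements
  have h1 : B.card + T.card ≤ (stepSet i B).card := by
    have hdis : Disjoint B (T.image (fun x => x + e)) := by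
      rw [Finset.disjoint_left]
      intro x hx hx'
      obtain ⟨y, hy, rfl⟩ := Finset.mem_image.mp hx'
      exact (Finset.mem_filter.mp hy).2 hx
    have hsub : B ∪ T.image (fun x => x + e) ⊆ stepSet i B := by
      intro x hx
      rcases Finset.mem_union.mp hx with hx | hx
      · exact Finset.mem_union_left _ hx
      · obtain ⟨y, hy, rfl⟩ := Finset.mem_image.mp hx
        exact Finset.mem_union_right _ (Finset.mem_image.mpr ⟨y, (Finset.mem_filter.mp hy).1, rfl⟩)
    have := Finset.card_le_card hsub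
    rw [Finset.card_union_of_disjoint hdis,
      Finset.card_image_of_injective _ (fun x y hxy => by simpa using hxy)] at this
    exact this
  -- the number of elements is at most `L * card T`
  have h2 : B.card ≤ T.card * L := by
    have hex : ∀ x ∈ B, ∃ j : ℕ, x + ((j : ℤ) + 1) • e ∉ B := by
      intro x hx
      refine ⟨L, fun hc => ?_⟩
      have := h x hx _ hc
      simp only [Pi.add_apply, Pi.smul_apply, smul_eq_mul, hei] at this
      linarith
    have hkey : ∀ x ∈ B, ∃ j : ℕ, j < L ∧ x + (j : ℤ) • e ∈ T := by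
      intro x hx
      have hx' := hex x hx
      classical
      set j := Nat.find hx' with hj
      have hj1 : x + ((j : ℤ) + 1) • e ∉ B := Nat.find_spec hx'
      have hj2 : x + (j : ℤ) • e ∈ B := by
        rcases Nat.eq_zero_or_pos j with h0 | h0
        · rw [h0]; simpa using hx
        · have := Nat.find_min hx' (m := j - 1) (by omega)
          have h3 := not_not.mp this
          have h4 : (((j - 1 : ℕ) : ℤ) + 1) = (j : ℤ) := by
            have : 1 ≤ j := h0
            push_cast [Nat.cast_sub this]; ring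
          rwa [h4] at h3
      refine ⟨j, ?_, ?_⟩
      · have := h x hx _ hj2
        simp only [Pi.add_apply, Pi.smul_apply, smul_eq_mul, hei] at this
        have : (j : ℤ) < L := by linarith
        exact_mod_cast this
      · refine Finset.mem_filter.mpr ⟨hj2, ?_⟩
        have : x + (j : ℤ) • e + e = x + ((j : ℤ) + 1) • e := by
          rw [add_smul, one_smul, add_assoc]
        rwa [this]
    choose! g hg1 hg2 using hkey
    have hcard : B.card ≤ (T ×ˢ Finset.range L).card := by
      refine Finset.card_le_card_of_injOn (fun x => (x + (g x : ℤ) • e, g x)) ?_ ?_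
      · intro x hx
        simp only [Finset.coe_product, Set.mem_prod, Finset.mem_coe, Finset.mem_range]
        exact ⟨hg2 x hx, hg1 x hx⟩
      · intro x hx y hy hxy
        simp only [Prod.mk.injEq] at hxy
        rw [hxy.2] at hxy
        exact add_right_cancel hxy.1
    simpa [Finset.card_product] using hcard
  calc B.card * (L + 1) = B.card * L + B.card := by ring
    _ ≤ B.card * L + T.card * L := by omega
    _ = (B.card + T.card) * L := by ring
    _ ≤ (stepSet i B).card * L := Nat.mul_le_mul_right _ h1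

end Step

/-- thickening in the first `j` directions -/
def thick {D : ℕ} (A : Finset (Fin D → ℤ)) : ℕ → Finset (Fin D → ℤ)
  | 0 => A
  | (j + 1) => if h : j < D then stepSet ⟨j, h⟩ (thick A j) else thick A j

lemma thick_mem {D : ℕ} (A : Finset (Fin D → ℤ)) (j : ℕ) :
    ∀ y ∈ thick A j, ∃ x ∈ A, ∀ w : Fin D, (y w = x w ∨ y w = x w + 1) ∧
      (j ≤ (w : ℕ) → y w = x w) := by
  induction j with
  | zero =>
    intro y hy
    exact ⟨y, hy, fun w => ⟨Or.inl rfl, fun _ => rfl⟩⟩
  | succ j ih =>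
    intro y hy
    by_cases h : j < D
    · rw [thick, dif_pos h] at hy
      rcases Finset.mem_union.mp hy with hy | hy
      · obtain ⟨x, hx, hxy⟩ := ih y hy
        exact ⟨x, hx, fun w => ⟨(hxy w).1, fun hw => (hxy w).2 (by omega)⟩⟩
      · obtain ⟨z, hz, rfl⟩ := Finset.mem_image.mp hy
        obtain ⟨x, hx, hxy⟩ := ih z hz
        refine ⟨x, hx, fun w => ?_⟩
        by_cases hw : w = ⟨j, h⟩
        · subst hw
          refine ⟨Or.inr ?_, fun hw => by simp at hw⟩
          have := (hxy ⟨j, h⟩).2 (le_refl _)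
          simp [this]
        · have : (z + (Pi.single (⟨j, h⟩ : Fin D) (1 : ℤ) : Fin D → ℤ)) w = z w := by
            simp [Pi.single_apply, hw]
          rw [this]
          exact ⟨(hxy w).1, fun hw' => (hxy w).2 (by omega)⟩
    · rw [thick, dif_neg h] at hy
      obtain ⟨x, hx, hxy⟩ := ih y hy
      exact ⟨x, hx, fun w => ⟨(hxy w).1, fun hw => (hxy w).2 (by omega)⟩⟩

lemma thick_card {D : ℕ} (A : Finset (Fin D → ℤ)) (L : ℕ)
    (h : ∀ x ∈ A, ∀ y ∈ A, ∀ w, y w - x w < (L : ℤ)) (j : ℕ) (hj : j ≤ D) :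
    A.card * (L + 1) ^ j ≤ (thick A j).card * L ^ j := by
  induction j with
  | zero => simp [thick]
  | succ j ih =>
    have hjD : j < D := by omega
    rw [thick, dif_pos hjD]
    have h1 := ih (by omega)
    have h2 := step_card (⟨j, hjD⟩ : Fin D) (thick A j) L (by
      intro x hx y hy
      obtain ⟨x', hx', hxx⟩ := thick_mem A j x hx
      obtain ⟨y', hy', hyy⟩ := thick_mem A j y hy
      rw [(hxx ⟨j, hjD⟩).2 (le_refl _), (hyy ⟨j, hjD⟩).2 (le_refl _)]
      exact h x' hx' y' hy' _)
    calc A.card * (L + 1) ^ (j + 1) = (A.card * (L + 1) ^ j) * (L + 1) := by ring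
      _ ≤ ((thick A j).card * L ^ j) * (L + 1) := Nat.mul_le_mul_right _ h1
      _ = ((thick A j).card * (L + 1)) * L ^ j := by ring
      _ ≤ ((stepSet ⟨j, hjD⟩ (thick A j)).card * L) * L ^ j := Nat.mul_le_mul_right _ h2
      _ = (stepSet ⟨j, hjD⟩ (thick A j)).card * L ^ (j + 1) := by ring

/-- the grid `{0,...,m}^D` -/
noncomputable def grid (D m : ℕ) : Finset (Fin D → ℤ) := Fintype.piFinset (fun _ => Finset.Icc (0 : ℤ) m)

lemma grid_card (D m : ℕ) : (grid D m).card = (m + 1) ^ D := by
  simp [grid, Fintype.card_piFinset]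

lemma mem_grid {D m : ℕ} {x : Fin D → ℤ} : x ∈ grid D m ↔ ∀ w, 0 ≤ x w ∧ x w ≤ m := by
  simp [grid, Fintype.mem_piFinset]

/-- density of one colour class -/
lemma class_card {D m L : ℕ} {β : Type} [DecidableEq β] (A : Finset (Fin D → ℤ))
    (hA : A ⊆ grid D m) (κ : (Fin D → ℤ) → β)
    (h1 : ∀ x ∈ A, ∀ y ∈ A, (∀ w, |x w - y w| ≤ 1) → κ x = κ y)
    (h2 : ∀ x ∈ A, ∀ y ∈ A, κ x = κ y → ∀ w, y w - x w < (L : ℤ)) :
    A.card * (L + 1) ^ D ≤ (m + 2) ^ D * L ^ D := by
  classical
  have hpart : A.card = ∑ b ∈ A.image κ, (A.filter (fun x => κ x = b)).card :=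
    Finset.card_eq_sum_card_image κ A
  have hdisj : ∀ b ∈ A.image κ, ∀ b' ∈ A.image κ, b ≠ b' →
      Disjoint (thick (A.filter (fun x => κ x = b)) D) (thick (A.filter (fun x => κ x = b')) D) := by
    intro b _ b' _ hbb
    rw [Finset.disjoint_left]
    intro y hy hy'
    obtain ⟨x, hx, hxy⟩ := thick_mem _ _ y hy
    obtain ⟨x', hx', hxy'⟩ := thick_mem _ _ y hy'
    rw [Finset.mem_filter] at hx hx'
    apply hbb
    rw [← hx.2, ← hx'.2]
    refine h1 x hx.1 x' hx'.1 (fun w => ?_)
    rcases (hxy w).1 with ha | ha <;> rcases (hxy' w).1 with hb | hb <;>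
      · rw [abs_le]; constructor <;> linarith
  have hsum : (∑ b ∈ A.image κ, (thick (A.filter (fun x => κ x = b)) D).card) ≤ (m + 2) ^ D := by
    rw [← Finset.card_biUnion hdisj, ← show (m + 1 + 1) ^ D = (m + 2) ^ D from rfl,
      ← grid_card D (m + 1)]
    apply Finset.card_le_card
    intro y hy
    obtain ⟨b, _, hy⟩ := Finset.mem_biUnion.mp hy
    obtain ⟨x, hx, hxy⟩ := thick_mem _ _ y hy
    have hx' := mem_grid.mp (hA (Finset.mem_filter.mp hx).1)
    rw [mem_grid]
    intro w
    have := hx' w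
    push_cast
    rcases (hxy w).1 with ha | ha <;> rw [ha] <;> constructor <;> linarith
  calc A.card * (L + 1) ^ D
      = ∑ b ∈ A.image κ, (A.filter (fun x => κ x = b)).card * (L + 1) ^ D := by
        rw [hpart, Finset.sum_mul]
    _ ≤ ∑ b ∈ A.image κ, (thick (A.filter (fun x => κ x = b)) D).card * L ^ D := by
        apply Finset.sum_le_sum
        intro b _
        apply thick_card _ _ _ _ le_rfl
        intro x hx y hy w
        rw [Finset.mem_filter] at hx hy
        exact h2 x hx.1 y hy.1 (hx.2.trans hy.2.symm) w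
    _ = (∑ b ∈ A.image κ, (thick (A.filter (fun x => κ x = b)) D).card) * L ^ D := by
        rw [Finset.sum_mul]
    _ ≤ (m + 2) ^ D * L ^ D := Nat.mul_le_mul_right _ hsum

/-- The covering lemma: the dimension is bounded by `2 L d`. -/
theorem grid_dim_le {D m L d : ℕ} {β : Type} (hL : 1 ≤ L) (hm : 2 * L ≤ m)
    (c : (Fin D → ℤ) → Fin (d + 1)) (κ : (Fin D → ℤ) → β)
    (h1 : ∀ x ∈ grid D m, ∀ y ∈ grid D m, c x = c y → (∀ w, |x w - y w| ≤ 1) → κ x = κ y)
    (h2 : ∀ x ∈ grid D m, ∀ y ∈ grid D m, c x = c y → κ x = κ y → ∀ w, y w - x w < (L : ℤ)) :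
    D ≤ 2 * L * d := by
  classical
  have hcol : ∀ i : Fin (d + 1),
      ((grid D m).filter (fun x => c x = i)).card * (L + 1) ^ D ≤ (m + 2) ^ D * L ^ D := by
    intro i
    refine class_card _ (Finset.filter_subset _ _) κ ?_ ?_
    · intro x hx y hy hxy
      rw [Finset.mem_filter] at hx hy
      exact h1 x hx.1 y hy.1 (hx.2.trans hy.2.symm) hxy
    · intro x hx y hy hxy
      rw [Finset.mem_filter] at hx hy
      exact h2 x hx.1 y hy.1 (hx.2.trans hy.2.symm) hxy
  have hsum : (m + 1) ^ D * (L + 1) ^ D ≤ (d + 1) * ((m + 2) ^ D * L ^ D) := by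
    have h3 : (grid D m).card = ∑ i : Fin (d + 1), ((grid D m).filter (fun x => c x = i)).card :=
      Finset.card_eq_sum_card_fiberwise (fun x _ => Finset.mem_coe.mpr (Finset.mem_univ (c x)))
    rw [← grid_card, h3, Finset.sum_mul]
    calc (∑ i : Fin (d + 1), ((grid D m).filter (fun x => c x = i)).card * (L + 1) ^ D)
        ≤ ∑ _i : Fin (d + 1), (m + 2) ^ D * L ^ D := Finset.sum_le_sum (fun i _ => hcol i)
      _ = (d + 1) * ((m + 2) ^ D * L ^ D) := by simp
  -- compare the bases
  have hbase : (m + 2) * (2 * L + 1) ≤ 2 * ((m + 1) * (L + 1)) := by nlinarith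
  have h4 : (m + 2) ^ D * (2 * L + 1) ^ D ≤ (m + 2) ^ D * ((d + 1) * (2 * L) ^ D) := by
    calc (m + 2) ^ D * (2 * L + 1) ^ D = ((m + 2) * (2 * L + 1)) ^ D := by rw [mul_pow]
      _ ≤ (2 * ((m + 1) * (L + 1))) ^ D := Nat.pow_le_pow_left hbase D
      _ = 2 ^ D * ((m + 1) ^ D * (L + 1) ^ D) := by rw [mul_pow, mul_pow]
      _ ≤ 2 ^ D * ((d + 1) * ((m + 2) ^ D * L ^ D)) := Nat.mul_le_mul_left _ hsum
      _ = (m + 2) ^ D * ((d + 1) * (2 * L) ^ D) := by rw [mul_pow]; ring
  have h5 : (2 * L + 1) ^ D ≤ (d + 1) * (2 * L) ^ D :=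
    Nat.le_of_mul_le_mul_left h4 (by positivity)
  rcases Nat.eq_zero_or_pos D with hD | hD
  · omega
  obtain ⟨E, rfl⟩ : ∃ E, D = E + 1 := ⟨D - 1, by omega⟩
  -- Bernoulli
  have hB : ∀ E : ℕ, (2 * L) ^ (E + 1) + (E + 1) * (2 * L) ^ E ≤ (2 * L + 1) ^ (E + 1) := by
    intro E
    induction E with
    | zero => simp
    | succ E ih =>
      calc (2 * L) ^ (E + 1 + 1) + (E + 1 + 1) * (2 * L) ^ (E + 1)
          ≤ (2 * L + 1) * ((2 * L) ^ (E + 1) + (E + 1) * (2 * L) ^ E) := by
            have h8 : (2 * L + 1) * ((2 * L) ^ (E + 1) + (E + 1) * (2 * L) ^ E) =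
              (2 * L) ^ (E + 1 + 1) + (E + 1 + 1) * (2 * L) ^ (E + 1) + (E + 1) * (2 * L) ^ E := by
              ring
            rw [h8]
            exact Nat.le_add_right _ _
        _ ≤ (2 * L + 1) * (2 * L + 1) ^ (E + 1) := Nat.mul_le_mul_left _ ih
        _ = (2 * L + 1) ^ (E + 1 + 1) := by ring
  have h6 := (hB E).trans h5
  have h7 : (E + 1) * (2 * L) ^ E ≤ (2 * L * d) * (2 * L) ^ E := by
    have : (d + 1) * (2 * L) ^ (E + 1) = (2 * L) ^ (E + 1) + (2 * L * d) * (2 * L) ^ E := by ring
    omega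
  exact Nat.le_of_mul_le_mul_right h7 (by positivity)

end Pool.Agent.AN90
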