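import Pool.Agent.AN90.Word

/-!
The diagonal product of dihedral lamp groups, as a group of permutations of `ℕ × ℤ × ℤ`.
The factor with index `s` has lamps at the sites `j : ℤ` (everything is periodic in `j` with period
`2 k_s`) with values in the permutations of the path `{0, ..., 2 q_s - 1}`.
-/

set_option autoImplicit false

namespace Pool.Agent.AN90

open Equiv

/-- the space acted upon -/
abbrev X : Type := ℕ × ℤ × ℤ

/-- the shift -/
def T : Perm X where
  toFun p := (p.1, p.2.1 + 1, p.2.2)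
  invFun p := (p.1, p.2.1 - 1, p.2.2)
  left_inv p := by simp
  right_inv p := by simp

/-- lamp configurations -/
def Lm : (ℕ → ℤ → Perm ℤ) →* Perm X where
  toFun φ :=
    { toFun := fun p => (p.1, p.2.1, φ p.1 p.2.1 p.2.2)
      invFun := fun p => (p.1, p.2.1, (φ p.1 p.2.1)⁻¹ p.2.2)
      left_inv := fun p => by simp
      right_inv := fun p => by simp }
  map_one' := by ext p <;> simp
  map_mul' φ ψ := by ext p <;> simp

@[simp] lemma T_apply (p : X) : T p = (p.1, p.2.1 + 1, p.2.2) := rfl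

@[simp] lemma Lm_apply (φ : ℕ → ℤ → Perm ℤ) (p : X) :
    Lm φ p = (p.1, p.2.1, φ p.1 p.2.1 p.2.2) := rfl

lemma T_inv_apply (p : X) : T⁻¹ p = (p.1, p.2.1 - 1, p.2.2) := rfl

lemma T_zpow_apply (n : ℤ) (p : X) : (T ^ n) p = (p.1, p.2.1 + n, p.2.2) := by
  induction n generalizing p with
  | zero => simp
  | succ n ih =>
    rw [zpow_add_one, Perm.mul_apply, ih]
    ext <;> simp
    ring
  | pred n ih =>
    rw [zpow_sub_one, Perm.mul_apply, ih, T_inv_apply]
    ext <;> simp
    ring

lemma Lm_inv_apply (φ : ℕ → ℤ → Perm ℤ) (p : X) :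
    (Lm φ)⁻¹ p = (p.1, p.2.1, (φ p.1 p.2.1)⁻¹ p.2.2) := rfl

lemma Lm_injective : Function.Injective Lm := by
  intro φ ψ h
  funext s j
  ext v
  have := congrArg (fun g : Perm X => (g (s, j, v)).2.2) h
  simpa using this

lemma T_conj (n : ℤ) (φ : ℕ → ℤ → Perm ℤ) :
    T ^ n * Lm φ * (T ^ n)⁻¹ = Lm (fun s j => φ s (j - n)) := by
  ext p <;>
  · simp only [Perm.mul_apply, ← zpow_neg, T_zpow_apply, Lm_apply]
    try simp [sub_eq_add_neg]

/-- first reflection of the path `{0, ..., 2q-1}` -/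
def alphaFun (q : ℕ) (v : ℤ) : ℤ :=
  if 0 ≤ v ∧ v < 2 * q then (if v % 2 = 0 then v + 1 else v - 1) else v

/-- second reflection of the path `{0, ..., 2q-1}` -/
def betaFun (q : ℕ) (v : ℤ) : ℤ :=
  if 1 ≤ v ∧ v < 2 * q - 1 then (if v % 2 = 1 then v + 1 else v - 1) else v

lemma alphaFun_invol (q : ℕ) : Function.Involutive (alphaFun q) := by
  intro v
  unfold alphaFun
  split_ifs <;> omega

lemma betaFun_invol (q : ℕ) : Function.Involutive (betaFun q) := by
  intro v
  unfold betaFun
  split_ifs <;> omega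

/-- first reflection, as a permutation -/
def alpha (q : ℕ) : Perm ℤ := (alphaFun_invol q).toPerm

/-- second reflection, as a permutation -/
def beta (q : ℕ) : Perm ℤ := (betaFun_invol q).toPerm

lemma alpha_apply (q : ℕ) (v : ℤ) : alpha q v = alphaFun q v := rfl
lemma beta_apply (q : ℕ) (v : ℤ) : beta q v = betaFun q v := rfl

lemma alpha_mul_self (q : ℕ) : alpha q * alpha q = 1 := by
  ext v
  simp only [Perm.mul_apply, alpha_apply, Perm.one_apply]
  exact alphaFun_invol q v

lemma beta_mul_self (q : ℕ) : beta q * beta q = 1 := by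
  ext v
  simp only [Perm.mul_apply, beta_apply, Perm.one_apply]
  exact betaFun_invol q v

lemma alpha_inv (q : ℕ) : (alpha q)⁻¹ = alpha q := inv_eq_of_mul_eq_one_left (alpha_mul_self q)
lemma beta_inv (q : ℕ) : (beta q)⁻¹ = beta q := inv_eq_of_mul_eq_one_left (beta_mul_self q)

/-- the commutator of the two reflections, a rotation by four steps -/
def gam (q : ℕ) : Perm ℤ := alpha q * beta q * (alpha q)⁻¹ * (beta q)⁻¹

lemma gam_inv (q : ℕ) : (gam q)⁻¹ = beta q * alpha q * beta q * alpha q := by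
  simp only [gam, alpha_inv, beta_inv, mul_inv_rev]
  group

lemma gam_inv_apply (q : ℕ) (i : ℕ) (h : 4 * i + 4 < 2 * q) :
    (gam q)⁻¹ (4 * (i : ℤ)) = 4 * ((i : ℤ) + 1) := by
  rw [gam_inv]
  simp only [Perm.mul_apply, alpha_apply, beta_apply]
  have h1 : alphaFun q (4 * (i : ℤ)) = 4 * i + 1 := by unfold alphaFun; split_ifs <;> omega
  have h2 : betaFun q (4 * (i : ℤ) + 1) = 4 * i + 2 := by unfold betaFun; split_ifs <;> omega
  have h3 : alphaFun q (4 * (i : ℤ) + 2) = 4 * i + 3 := by unfold alphaFun; split_ifs <;> omega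
  have h4 : betaFun q (4 * (i : ℤ) + 3) = 4 * (i + 1) := by unfold betaFun; split_ifs <;> omega
  rw [h1, h2, h3, h4]

lemma gam_pow_inv_apply (q : ℕ) (i : ℕ) (h : 4 * i < 2 * q) :
    ((gam q) ^ i)⁻¹ 0 = 4 * (i : ℤ) := by
  induction i with
  | zero => simp
  | succ i ih =>
    rw [pow_succ, mul_inv_rev, Perm.mul_apply, ih (by omega), gam_inv_apply q i (by omega)]
    push_cast
    ring

section Params

variable (k q : ℕ → ℕ)

/-- first lamp generator -/
def ga : Perm X := Lm (fun s j => if (2 * (k s : ℤ)) ∣ j then alpha (q s) else 1)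

/-- second lamp generator -/
def gb : Perm X := Lm (fun s j => if (2 * (k s : ℤ)) ∣ j - k s then beta (q s) else 1)

/-- the generators -/
def gens : Set (Perm X) := {T, ga k q, gb k q}

/-- the group -/
abbrev GG : Subgroup (Perm X) := Subgroup.closure (gens k q)

lemma T_mem : T ∈ GG k q := Subgroup.subset_closure (by simp [gens])
lemma ga_mem : ga k q ∈ GG k q := Subgroup.subset_closure (by simp [gens])
lemma gb_mem : gb k q ∈ GG k q := Subgroup.subset_closure (by simp [gens])

open Classical in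
/-- the generating set -/
noncomputable def SS : Finset (GG k q) := {⟨T, T_mem k q⟩, ⟨ga k q, ga_mem k q⟩, ⟨gb k q, gb_mem k q⟩}

lemma mem_SS (x : GG k q) : x ∈ SS k q ↔ (x : Perm X) ∈ gens k q := by
  simp only [SS, gens, Finset.mem_insert, Finset.mem_singleton, Set.mem_insert_iff,
    Set.mem_singleton_iff, Subtype.ext_iff]

lemma closure_SS : Subgroup.closure (SS k q : Set (GG k q)) = ⊤ := by
  have : (SS k q : Set (GG k q)) = ((↑) : GG k q → Perm X) ⁻¹' (gens k q) := by
    ext x
    simp only [Finset.mem_coe, Set.mem_preimage]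
    exact mem_SS k q x
  rw [this]
  exact Subgroup.closure_closure_coe_preimage

/-- word length at most `n` -/
def Len (g : Perm X) (n : ℕ) : Prop :=
  ∃ l : List (Perm X), l.length ≤ n ∧ (∀ y ∈ l, y ∈ gens k q ∨ y⁻¹ ∈ gens k q) ∧ l.prod = g

variable {k q}

lemma Len.one (n : ℕ) : Len k q 1 n := ⟨[], by simp, by simp, rfl⟩

lemma Len.mul {g h : Perm X} {n m : ℕ} (hg : Len k q g n) (hh : Len k q h m) :
    Len k q (g * h) (n + m) := by
  obtain ⟨l, h1, h2, rfl⟩ := hg
  obtain ⟨l', h1', h2', rfl⟩ := hh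
  refine ⟨l ++ l', by rw [List.length_append]; omega, ?_, List.prod_append⟩
  intro y hy
  rcases List.mem_append.mp hy with hy | hy
  · exact h2 y hy
  · exact h2' y hy

lemma Len.inv {g : Perm X} {n : ℕ} (hg : Len k q g n) : Len k q g⁻¹ n := by
  obtain ⟨l, h1, h2, rfl⟩ := hg
  refine ⟨(l.map (fun x => x⁻¹)).reverse, by simpa using h1, ?_, (List.prod_inv_reverse l).symm⟩
  intro y hy
  rw [List.mem_reverse, List.mem_map] at hy
  obtain ⟨z, hz, rfl⟩ := hy
  rw [inv_inv]
  exact (h2 z hz).symm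

lemma Len.mono {g : Perm X} {n m : ℕ} (hg : Len k q g n) (h : n ≤ m) : Len k q g m := by
  obtain ⟨l, h1, h2, h3⟩ := hg
  exact ⟨l, h1.trans h, h2, h3⟩

lemma Len.gen {g : Perm X} (hg : g ∈ gens k q) : Len k q g 1 :=
  ⟨[g], by simp, by simpa using Or.inl hg, by simp⟩

lemma Len.T_zpow (n : ℤ) : Len k q (T ^ n) n.natAbs := by
  have h : ∀ m : ℕ, Len k q (T ^ m) m := by
    intro m
    induction m with
    | zero => simpa using Len.one 0
    | succ m ih =>
      rw [pow_succ]
      exact ih.mul (Len.gen (by simp [gens]))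
  rcases Int.natAbs_eq n with hn | hn
  · rw [hn, zpow_natCast, Int.natAbs_natCast]
    exact h _
  · rw [hn, zpow_neg, zpow_natCast, Int.natAbs_neg, Int.natAbs_natCast]
    exact (h _).inv

lemma Len.lift {g : Perm X} {n : ℕ} (hg : Len k q g n) :
    ∃ l : List (GG k q), l.length ≤ n ∧ (∀ y ∈ l, y ∈ SS k q ∨ y⁻¹ ∈ SS k q) ∧
      ((l.prod : GG k q) : Perm X) = g := by
  obtain ⟨l, h1, h2, rfl⟩ := hg
  induction l generalizing n with
  | nil => exact ⟨[], by simp, by simp, by simp⟩
  | cons y l ih =>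
    obtain ⟨l', h1', h2', h3'⟩ := ih (n := n - 1) (by simp at h1; omega)
      (fun z hz => h2 z (List.mem_cons_of_mem _ hz))
    have hy := h2 y List.mem_cons_self
    have hyG : y ∈ GG k q := by
      rcases hy with hy | hy
      · exact Subgroup.subset_closure hy
      · exact inv_mem_iff.mp (Subgroup.subset_closure hy)
    refine ⟨⟨y, hyG⟩ :: l', ?_, ?_, ?_⟩
    · simp only [List.length_cons] at h1 ⊢
      omega
    · intro z hz
      rcases List.mem_cons.mp hz with rfl | hz
      · rcases hy with hy | hy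
        · exact Or.inl ((mem_SS k q _).mpr hy)
        · exact Or.inr ((mem_SS k q _).mpr hy)
      · exact h2' z hz
    · rw [List.prod_cons, List.prod_cons, Subgroup.coe_mul, h3']

lemma Len.dist_le {x y : GG k q} {n : ℕ} (h : Len k q ((x : Perm X)⁻¹ * (y : Perm X)) n) :
    (cay (SS k q)).dist x y ≤ n := by
  obtain ⟨l, h1, h2, h3⟩ := h.lift
  have h4 : x * l.prod = y := by
    apply Subtype.ext
    rw [Subgroup.coe_mul, h3]
    group
  rw [← h4]
  exact (dist_list_le (SS k q) l h2 x).trans h1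

end Params

end Pool.Agent.AN90
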