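import Pool.Agent.AN90.Lower

/-!
Exponential growth.
-/

set_option autoImplicit false

namespace Pool.Agent.AN90

open Equiv

section Params

variable {k q : ℕ → ℕ}

/-- extension of a 0-1 sequence -/
def bext {m : ℕ} (e : Fin m → Bool) (w : ℕ) : ℕ := if h : w < m then (if e ⟨w, h⟩ then 1 else 0) else 0

lemma bext_le {m : ℕ} (e : Fin m → Bool) (w : ℕ) : bext e w ≤ 1 := by
  unfold bext; split_ifs <;> omega

lemma bext_inj {m : ℕ} {e e' : Fin m → Bool} (h : ∀ w < m, bext e w = bext e' w) : e = e' := by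
  funext w
  have := h w w.2
  unfold bext at this
  rw [dif_pos w.2, dif_pos w.2] at this
  cases h1 : e w <;> cases h2 : e' w <;> simp_all

lemma alpha_pow_zero {Q : ℕ} (hQ : 1 ≤ Q) {e : ℕ} (he : e ≤ 1) : ((alpha Q) ^ e) 0 = (e : ℤ) := by
  interval_cases e
  · simp
  · rw [pow_one, alpha_apply]
    unfold alphaFun
    rw [if_pos (by omega)]
    simp

/-- the elements of the tree of words -/
def treeEl (k q : ℕ → ℕ) (m : ℕ) (e : ℕ → ℕ) : Perm X := Pr (ga k q) 0 1 e (m + 1) * T ^ (m : ℤ)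

lemma treeEl_len (m : ℕ) (e : ℕ → ℕ) (he : ∀ w, e w ≤ 1) :
    Len k q (treeEl k q m e) (2 * m + 1) := by
  have h1 : treeEl k q m e = (Pr (ga k q) 0 ((1 : ℕ) : ℤ) e m * T ^ (0 + (m : ℤ) * ((1 : ℕ) : ℤ))) *
      ga k q ^ (e m) := by
    unfold treeEl
    rw [Pr]
    simp only [Nat.cast_one, mul_one, zero_add]
    group
  rw [h1]
  have h2 : Len k q (ga k q ^ (e m)) 1 := by
    have := he m
    interval_cases h : e m
    · simpa using Len.one 1
    · simpa using Len.gen (k := k) (q := q) (g := ga k q) (by simp [gens])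
  refine ((Pr_len (ga k q) (by simp [gens]) 0 1 e he m).mul h2).mono ?_
  simp
  omega

lemma treeEl_inj (hq : ∀ s, 1 ≤ q s) (hk : ∀ N, ∃ s, N ≤ k s) (m : ℕ)
    {e e' : Fin (m + 1) → Bool} (h : treeEl k q m (bext e) = treeEl k q m (bext e')) : e = e' := by
  unfold treeEl at h
  have h1 := mul_right_cancel h
  rw [Pr_ga, Pr_ga] at h1
  have h2 := Lm_injective h1
  obtain ⟨s, hs⟩ := hk (m + 1)
  apply bext_inj
  intro w0 hw0
  have h3 := congrArg (fun φ => (φ s (w0 : ℤ)) 0) h2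
  simp only at h3
  have key : ∀ f : ℕ → ℕ, (∑ w ∈ Finset.range (m + 1),
      if (2 * (k s : ℤ)) ∣ (w0 : ℤ) - (0 + (w : ℤ) * 1) then f w else 0) = f w0 := by
    intro f
    rw [Finset.sum_eq_single w0]
    · rw [if_pos]; simp
    · intro w hw hne
      rw [if_neg]
      intro hd
      have hw' := Finset.mem_range.mp hw
      have h4 : (w0 : ℤ) - (0 + (w : ℤ) * 1) = 0 := by
        apply Int.eq_zero_of_abs_lt_dvd hd
        rw [abs_lt]
        constructor <;> omega
      omega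
    · intro hn; exact absurd (Finset.mem_range.mpr hw0) hn
  rw [key, key, alpha_pow_zero (hq s) (bext_le e w0), alpha_pow_zero (hq s) (bext_le e' w0)] at h3
  exact_mod_cast h3

theorem exp_growth (hq : ∀ s, 1 ≤ q s) (hk : ∀ N, ∃ s, N ≤ k s) :
    ∃ c : ℝ, 1 < c ∧ ∀ n : ℕ,
        c ^ n ≤ (({g : GG k q | (cay (SS k q)).dist 1 g ≤ n}.ncard : ℕ) : ℝ) := by
  have hball : ∀ m : ℕ, 2 ^ (m + 1) ≤ {g : GG k q | (cay (SS k q)).dist 1 g ≤ 2 * m + 1}.ncard := by
    intro m
    have h := card_le_ball (SS k q) (closure_SS k q) (2 * m + 1) (A := Fin (m + 1) → Bool)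
      (fun e => (⟨treeEl k q m (bext e), (treeEl_len m (bext e) (bext_le e)).mem⟩ : GG k q))
      (by
        intro e e' hee
        exact treeEl_inj hq hk m (congrArg Subtype.val hee))
      (by
        intro e
        apply Len.dist_le
        rw [Subgroup.coe_one, inv_one, one_mul]
        exact treeEl_len m (bext e) (bext_le e))
    simpa using h
  refine ⟨5 / 4, by norm_num, fun n => ?_⟩
  rcases Nat.eq_zero_or_pos n with hn | hn
  · subst hn
    have h1 : 0 < {g : GG k q | (cay (SS k q)).dist 1 g ≤ 0}.ncard := by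
      rw [Set.ncard_pos (ball_finite (SS k q) (closure_SS k q) 0)]
      exact ⟨1, by simp⟩
    have h2 : (1 : ℝ) ≤ (({g : GG k q | (cay (SS k q)).dist 1 g ≤ 0}.ncard : ℕ) : ℝ) := by
      exact_mod_cast h1
    simpa using h2
  · set m := (n - 1) / 2 with hm
    have h1 : n ≤ 2 * (m + 1) := by omega
    have h2 : 2 * m + 1 ≤ n := by omega
    calc (5 / 4 : ℝ) ^ n ≤ (5 / 4 : ℝ) ^ (2 * (m + 1)) :=
          pow_le_pow_right₀ (by norm_num) h1
      _ = ((5 / 4 : ℝ) ^ 2) ^ (m + 1) := by rw [pow_mul]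
      _ ≤ 2 ^ (m + 1) := pow_le_pow_left₀ (by norm_num) (by norm_num) _
      _ ≤ (({g : GG k q | (cay (SS k q)).dist 1 g ≤ 2 * m + 1}.ncard : ℕ) : ℝ) := by
          exact_mod_cast hball m
      _ ≤ (({g : GG k q | (cay (SS k q)).dist 1 g ≤ n}.ncard : ℕ) : ℝ) := by
          have := Set.ncard_le_ncard (s := {g : GG k q | (cay (SS k q)).dist 1 g ≤ 2 * m + 1})
            (t := {g : GG k q | (cay (SS k q)).dist 1 g ≤ n})
            (fun g hg => le_trans hg h2) (ball_finite (SS k q) (closure_SS k q) n)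
          exact_mod_cast this

end Params

end Pool.Agent.AN90
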