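import Pool.Agent.AN90.Elems
import Pool.Agent.AN90.Grid

/-!
The Lipschitz functions which bound word lengths from below, infinite Assouad-Nagata dimension,
and exponential growth.
-/

set_option autoImplicit false

namespace Pool.Agent.AN90

open Equiv

/-- distance of `j` to the class of `k` modulo `2k` -/
def hpot (k : ℕ) (j : ℤ) : ℤ := |j % (2 * (k : ℤ)) - k|

lemma hpot_lip (k : ℕ) (hk : 0 < k) (j : ℤ) : |hpot k (j + 1) - hpot k j| ≤ 1 := by
  have hk' : (0 : ℤ) < 2 * (k : ℤ) := by omega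
  have h0 := Int.emod_nonneg j hk'.ne'
  have h1 := Int.emod_lt_of_pos j hk'
  have h2 : (j + 1) % (2 * (k : ℤ)) = (j % (2 * (k : ℤ)) + 1) % (2 * (k : ℤ)) := by
    rw [Int.emod_add_emod]
  unfold hpot
  rw [h2]
  rcases lt_or_ge (j % (2 * (k : ℤ)) + 1) (2 * (k : ℤ)) with h3 | h3
  · rw [Int.emod_eq_of_lt (by omega) h3]
    set r := j % (2 * (k : ℤ))
    rw [abs_le]
    constructor
    · have := abs_sub_abs_le_abs_sub (r - k) (r + 1 - k)
      have h4 : |r - k - (r + 1 - k)| = 1 := by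
        have : r - k - (r + 1 - k) = (-1 : ℤ) := by ring
        rw [this]; rfl
      linarith
    · have := abs_sub_abs_le_abs_sub (r + 1 - k) (r - k)
      have h4 : |r + 1 - k - (r - k)| = 1 := by
        have : r + 1 - k - (r - k) = (1 : ℤ) := by ring
        rw [this]; rfl
      linarith
  · have h4 : j % (2 * (k : ℤ)) = 2 * k - 1 := by omega
    have h5 : (2 * (k : ℤ) - 1 + 1) % (2 * (k : ℤ)) = 0 := by
      rw [sub_add_cancel]; exact Int.emod_self
    rw [h4, h5]
    have h6 : |(0 : ℤ) - k| = k := by rw [zero_sub, abs_neg, abs_of_nonneg (by omega)]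
    have h7 : |2 * (k : ℤ) - 1 - k| = k - 1 := by rw [abs_of_nonneg (by omega)]; ring
    rw [h6, h7]
    rw [abs_le]; constructor <;> linarith

/-- the potential on the `s0`-th factor -/
def pot (k : ℕ → ℕ) (s0 : ℕ) (p : X) : ℤ :=
  if p.1 = s0 then
    (k s0 : ℤ) * p.2.2 + (if p.2.2 % 2 = 0 then hpot (k s0) p.2.1 else k s0 - hpot (k s0) p.2.1)
  else 0

section Params

variable {k q : ℕ → ℕ}

lemma pot_eq (s0 : ℕ) (j v : ℤ) : pot k s0 (s0, j, v) =
    (k s0 : ℤ) * v + (if v % 2 = 0 then hpot (k s0) j else k s0 - hpot (k s0) j) := by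
  simp [pot]

lemma pot_ne (s0 s : ℕ) (hs : s ≠ s0) (j v : ℤ) : pot k s0 (s, j, v) = 0 := by
  simp [pot, hs]

lemma pot_T (s0 : ℕ) (hk : 0 < k s0) (p : X) : |pot k s0 (T p) - pot k s0 p| ≤ 1 := by
  obtain ⟨s, j, v⟩ := p
  have hT : T (s, j, v) = (s, j + 1, v) := rfl
  rw [hT]
  by_cases hs : s = s0
  · subst hs
    rw [pot_eq, pot_eq]
    have h := hpot_lip (k s) hk j
    split_ifs
    · rwa [add_sub_add_left_eq_sub]
    · rw [add_sub_add_left_eq_sub, sub_sub_sub_cancel_left, abs_sub_comm]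
      exact h
  · rw [pot_ne _ _ hs, pot_ne _ _ hs]
    simp

lemma pot_ga (s0 : ℕ) (hk : 0 < k s0) (p : X) : pot k s0 (ga k q p) = pot k s0 p := by
  obtain ⟨s, j, v⟩ := p
  have hg : ga k q (s, j, v) = (s, j, (if (2 * (k s : ℤ)) ∣ j then alpha (q s) else 1) v) := rfl
  rw [hg]
  by_cases hs : s = s0
  · subst hs
    rw [pot_eq, pot_eq]
    by_cases hd : (2 * (k s : ℤ)) ∣ j
    · rw [if_pos hd, alpha_apply]
      have h1 : hpot (k s) j = k s := by
        unfold hpot
        rw [Int.emod_eq_zero_of_dvd hd, zero_sub, abs_neg, abs_of_nonneg (by omega)]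
      rw [h1]
      unfold alphaFun
      by_cases hv : 0 ≤ v ∧ v < 2 * (q s : ℤ)
      · rw [if_pos hv]
        by_cases h2 : v % 2 = 0
        · rw [if_pos h2, if_pos h2, if_neg (by omega)]
          ring
        · rw [if_neg h2, if_neg h2, if_pos (by omega)]
          ring
      · rw [if_neg hv]
    · rw [if_neg hd, Perm.one_apply]
  · rw [pot_ne _ _ hs, pot_ne _ _ hs]

lemma pot_gb (s0 : ℕ) (hk : 0 < k s0) (p : X) : pot k s0 (gb k q p) = pot k s0 p := by
  obtain ⟨s, j, v⟩ := p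
  have hg : gb k q (s, j, v) = (s, j, (if (2 * (k s : ℤ)) ∣ j - k s then beta (q s) else 1) v) := rfl
  rw [hg]
  by_cases hs : s = s0
  · subst hs
    rw [pot_eq, pot_eq]
    by_cases hd : (2 * (k s : ℤ)) ∣ j - k s
    · rw [if_pos hd, beta_apply]
      have h1 : hpot (k s) j = 0 := by
        unfold hpot
        have h3 : j % (2 * (k s : ℤ)) = (k s : ℤ) % (2 * (k s : ℤ)) := by
          rw [Int.emod_eq_emod_iff_emod_sub_eq_zero]
          exact Int.emod_eq_zero_of_dvd hd
        rw [h3, Int.emod_eq_of_lt (by omega) (by omega)]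
        simp
      rw [h1]
      unfold betaFun
      by_cases hv : 1 ≤ v ∧ v < 2 * (q s : ℤ) - 1
      · rw [if_pos hv]
        by_cases h2 : v % 2 = 1
        · rw [if_pos h2, if_pos (by omega), if_neg (by omega)]
          ring
        · rw [if_neg h2, if_neg (by omega), if_pos (by omega)]
          ring
      · rw [if_neg hv]
    · rw [if_neg hd, Perm.one_apply]
  · rw [pot_ne _ _ hs, pot_ne _ _ hs]

lemma apply_inv_self' (g : Perm X) (z : X) : g (g⁻¹ z) = z := by
  rw [← Perm.mul_apply, mul_inv_cancel, Perm.one_apply]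

/-- the function `g ↦ pot (g⁻¹ x0)` is Lipschitz -/
lemma pot_lip (s0 : ℕ) (hk : 0 < k s0) (x0 : X) (x y : GG k q) :
    |pot k s0 ((x : Perm X)⁻¹ x0) - pot k s0 ((y : Perm X)⁻¹ x0)| ≤
      ((cay (SS k q)).dist x y : ℤ) := by
  refine lip_dist (SS k q) (closure_SS k q)
    (fun g : GG k q => pot k s0 ((g : Perm X)⁻¹ x0)) ?_ x y
  intro g s hs
  have h1 : (((g * s : GG k q) : Perm X))⁻¹ x0 = (s : Perm X)⁻¹ ((g : Perm X)⁻¹ x0) := by
    rw [Subgroup.coe_mul, mul_inv_rev, Perm.mul_apply]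
  simp only [h1]
  set z := (g : Perm X)⁻¹ x0
  rcases (mem_SS k q s).mp hs with h | h | h
  · rw [h]
    have := pot_T (k := k) s0 hk (T⁻¹ z)
    rw [apply_inv_self'] at this
    rwa [abs_sub_comm]
  · rw [h]
    have := pot_ga (k := k) (q := q) s0 hk ((ga k q)⁻¹ z)
    rw [apply_inv_self'] at this
    rw [← this]; simp
  · have h' : (s : Perm X) = gb k q := h
    rw [h']
    have := pot_gb (k := k) (q := q) s0 hk ((gb k q)⁻¹ z)
    rw [apply_inv_self'] at this
    rw [← this]; simp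

lemma Len.mem {g : Perm X} {n : ℕ} (h : Len k q g n) : g ∈ GG k q := by
  obtain ⟨l, -, -, h3⟩ := h.lift
  rw [← h3]
  exact l.prod.2

lemma win_inv_apply {s0 L D : ℕ} (h : Scales k s0 L D) (x : ℕ → ℤ) (w : ℕ) (hw : w < D) (m : ℕ)
    (hx0 : 0 ≤ x w) (hxm : x w ≤ m) (hq : 4 * m < 2 * q s0) :
    (win k q s0 L D x)⁻¹ (s0, (w : ℤ) * L, 0) = (s0, (w : ℤ) * L, 4 * x w) := by
  rw [win, Lm_inv_apply]
  simp only [if_true]
  have h1 : (∑ w' ∈ Finset.range D, if (2 * (k s0 : ℤ)) ∣ (w : ℤ) * L - w' * L then x w' else 0) =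
      x w := by
    rw [Finset.sum_eq_single w]
    · rw [if_pos (by simp)]
    · intro w' hw' hne
      rw [if_neg]
      intro hd
      exact hne (unique_site h _ (Finset.mem_range.mp hw') hw hd (by simp))
    · intro hn; exact absurd (Finset.mem_range.mpr hw) hn
  rw [h1]
  obtain ⟨i, hi⟩ := Int.eq_ofNat_of_zero_le hx0
  rw [hi, zpow_natCast, gam_pow_inv_apply (q s0) i (by omega)]

/-- infinite Assouad-Nagata dimension -/
theorem not_AN (hpos : ∀ s, 0 < k s) (Ls Ds : ℕ → ℕ) (hsc : ∀ s, Scales k s (Ls s) (Ds s))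
    (hD : ∀ N, ∃ s, N ≤ Ds s ∧ N ≤ q s) :
    ¬ ∃ (d C : ℕ), ∀ r : ℕ, 1 ≤ r →
        ∃ (c : GG k q → Fin (d + 1)) (κ : GG k q → GG k q), ∀ x y : GG k q, c x = c y →
          (κ x = κ y → (cay (SS k q)).dist x y ≤ C * r) ∧
          (κ x ≠ κ y → r < (cay (SS k q)).dist x y) := by
  rintro ⟨d, C, h⟩
  set L' : ℕ := 8 * C + 1 with hL'
  set m : ℕ := 2 * L' with hm
  obtain ⟨s0, hs1, hs2⟩ := hD (2 * L' * d + 1 + 4 * m)
  set D := Ds s0
  have hS := hsc s0
  obtain ⟨c, κ, hck⟩ := h (32 * k s0) (by have := hpos s0; omega)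
  -- extension of a function on `Fin D`
  set ext : (Fin D → ℤ) → (ℕ → ℤ) := fun x w => if hw : w < D then max (-(m : ℤ)) (min (x ⟨w, hw⟩) m)
    else 0 with hext
  have hext_le : ∀ x w, |ext x w| ≤ m := by
    intro x w
    simp only [hext]
    split_ifs
    · rw [abs_le]
      exact ⟨le_max_left _ _, max_le (by omega) (min_le_right _ _)⟩
    · simp
  set Φ : (Fin D → ℤ) → GG k q := fun x =>
    ⟨win k q s0 (Ls s0) D (ext x), (win_len hS m (ext x) (hext_le x)).mem⟩ with hΦ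
  have hext_grid : ∀ x ∈ grid D m, ∀ w : Fin D, ext x w = x w := by
    intro x hx w
    have := mem_grid.mp hx w
    simp only [hext]
    rw [dif_pos w.2]
    rw [min_eq_left this.2, max_eq_right (by omega)]
  -- upper bound for distances
  have hup : ∀ x ∈ grid D m, ∀ y ∈ grid D m, (∀ w, |x w - y w| ≤ 1) →
      (cay (SS k q)).dist (Φ x) (Φ y) ≤ 32 * k s0 := by
    intro x hx y hy hxy
    apply Len.dist_le
    simp only [hΦ]
    rw [← win_neg, ← win_add]
    have := win_len (q := q) hS 1 (fun w => -ext x w + ext y w) (by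
      intro w
      by_cases hw : w < D
      · have h1 := hext_grid x hx ⟨w, hw⟩
        have h2 := hext_grid y hy ⟨w, hw⟩
        simp only at h1 h2
        rw [h1, h2]
        have := hxy ⟨w, hw⟩
        rw [abs_sub_comm] at this
        rw [Nat.cast_one, neg_add_eq_sub]
        exact this
      · simp only [hext]
        rw [dif_neg hw, dif_neg hw]
        simp)
    simpa using this
  -- lower bound for distances
  have hlow : ∀ x ∈ grid D m, ∀ y ∈ grid D m, ∀ w : Fin D,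
      4 * (k s0 : ℤ) * (y w - x w) ≤ ((cay (SS k q)).dist (Φ x) (Φ y) : ℤ) := by
    intro x hx y hy w
    have h1 := pot_lip (q := q) s0 (hpos s0) (s0, ((w : ℕ) : ℤ) * (Ls s0 : ℤ), 0) (Φ x) (Φ y)
    have hx' := mem_grid.mp hx w
    have hy' := mem_grid.mp hy w
    have hqm : 4 * m < 2 * q s0 := by omega
    have h2 : ((Φ x : GG k q) : Perm X)⁻¹ (s0, ((w : ℕ) : ℤ) * (Ls s0 : ℤ), 0) =
        (s0, ((w : ℕ) : ℤ) * (Ls s0 : ℤ), 4 * x w) := by
      have := win_inv_apply (q := q) hS (ext x) w w.2 m (by rw [hext_grid x hx]; exact hx'.1)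
        (by rw [hext_grid x hx]; exact hx'.2) hqm
      rw [hext_grid x hx] at this
      exact this
    have h3 : ((Φ y : GG k q) : Perm X)⁻¹ (s0, ((w : ℕ) : ℤ) * (Ls s0 : ℤ), 0) =
        (s0, ((w : ℕ) : ℤ) * (Ls s0 : ℤ), 4 * y w) := by
      have := win_inv_apply (q := q) hS (ext y) w w.2 m (by rw [hext_grid y hy]; exact hy'.1)
        (by rw [hext_grid y hy]; exact hy'.2) hqm
      rw [hext_grid y hy] at this
      exact this
    rw [h2, h3] at h1
    rw [pot_eq, pot_eq, if_pos (by omega), if_pos (by omega)] at h1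
    have h4 := (abs_le.mp h1).1
    have h5 : (k s0 : ℤ) * (4 * x w) + hpot (k s0) (((w : ℕ) : ℤ) * (Ls s0 : ℤ)) -
        ((k s0 : ℤ) * (4 * y w) + hpot (k s0) (((w : ℕ) : ℤ) * (Ls s0 : ℤ))) =
        -(4 * (k s0 : ℤ) * (y w - x w)) := by ring
    rw [h5] at h4
    linarith
  have hk0 : (0 : ℤ) < k s0 := by exact_mod_cast hpos s0
  have hfin := grid_dim_le (D := D) (m := m) (L := L') (d := d) (by omega) (by omega)
    (fun x => c (Φ x)) (fun x => κ (Φ x))
    (by
      intro x hx y hy hc hxy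
      by_contra hne
      have := (hck (Φ x) (Φ y) hc).2 hne
      have := hup x hx y hy hxy
      omega)
    (by
      intro x hx y hy hc hκ w
      have h1 := (hck (Φ x) (Φ y) hc).1 hκ
      have h2 := hlow x hx y hy w
      have h3 : ((cay (SS k q)).dist (Φ x) (Φ y) : ℤ) ≤ (C : ℤ) * (32 * k s0) := by
        exact_mod_cast h1
      have h4 : 4 * (k s0 : ℤ) * (y w - x w) ≤ 4 * (k s0 : ℤ) * (8 * C) := by
        calc 4 * (k s0 : ℤ) * (y w - x w) ≤ (C : ℤ) * (32 * k s0) := h2.trans h3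
          _ = 4 * (k s0 : ℤ) * (8 * C) := by ring
      have h5 := le_of_mul_le_mul_left h4 (by positivity)
      have : (L' : ℤ) = 8 * C + 1 := by simp [hL']
      omega)
  have : 2 * L' * d + 1 + 4 * m ≤ D := hs1
  omega

end Params

end Pool.Agent.AN90
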