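import Pool.Agent.AN90.Group

/-!
The groups are solvable of derived length at most three.
-/

set_option autoImplicit false

namespace Pool.Agent.AN90

open Equiv
open scoped commutatorElement

section Dihedral

variable {A : Type} [Group A]

/-- elements of the dihedral group generated by two involutions -/
lemma dih_form (x y : A) (hx : x * x = 1) (hy : y * y = 1) (g : A)
    (hg : g ∈ Subgroup.closure ({x, y} : Set A)) :
    ∃ n : ℤ, g = (x * y) ^ n ∨ g = (x * y) ^ n * x := by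
  have hinv : x⁻¹ = x := inv_eq_of_mul_eq_one_left hx
  have hyinv : y⁻¹ = y := inv_eq_of_mul_eq_one_left hy
  have hconj : ∀ n : ℤ, x * (x * y) ^ n * x = (x * y) ^ (-n) := by
    intro n
    have h1 : x * (x * y) * x⁻¹ = (x * y)⁻¹ := by
      rw [mul_inv_rev, hinv, hyinv, ← mul_assoc, hx, one_mul]
    calc x * (x * y) ^ n * x = x * (x * y) ^ n * x⁻¹ := by rw [hinv]
      _ = (x * (x * y) * x⁻¹) ^ n := by rw [conj_zpow]
      _ = (x * y) ^ (-n) := by rw [h1, inv_zpow, zpow_neg]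
  have hmul : ∀ a b : A, (∃ n : ℤ, a = (x * y) ^ n ∨ a = (x * y) ^ n * x) →
      (∃ n : ℤ, b = (x * y) ^ n ∨ b = (x * y) ^ n * x) →
      (∃ n : ℤ, a * b = (x * y) ^ n ∨ a * b = (x * y) ^ n * x) := by
    rintro a b ⟨n, rfl | rfl⟩ ⟨m, rfl | rfl⟩
    · exact ⟨n + m, Or.inl (by rw [zpow_add])⟩
    · exact ⟨n + m, Or.inr (by rw [zpow_add, mul_assoc])⟩
    · refine ⟨n - m, Or.inr ?_⟩
      have h2 : x * (x * y) ^ m = (x * y) ^ (-m) * x := by
        rw [← hconj m, mul_assoc, hx, mul_one]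
      rw [mul_assoc, h2, ← mul_assoc, ← zpow_add, sub_eq_add_neg]
    · refine ⟨n - m, Or.inl ?_⟩
      have h2 : (x * y) ^ n * x * ((x * y) ^ m * x) = (x * y) ^ n * (x * (x * y) ^ m * x) := by
        simp only [mul_assoc]
      rw [h2, hconj, ← zpow_add, sub_eq_add_neg]
  induction hg using Subgroup.closure_induction with
  | mem z hz =>
    rcases hz with rfl | hz
    · exact ⟨0, Or.inr (by simp)⟩
    · rw [Set.mem_singleton_iff] at hz
      subst hz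
      refine ⟨-1, Or.inr ?_⟩
      rw [zpow_neg, zpow_one, mul_inv_rev, hinv, hyinv, mul_assoc, hx, mul_one]
  | one => exact ⟨0, Or.inl (by simp)⟩
  | mul a b _ _ ha hb => exact hmul a b ha hb
  | inv a _ ha =>
    obtain ⟨n, rfl | rfl⟩ := ha
    · exact ⟨-n, Or.inl (by rw [zpow_neg])⟩
    · refine ⟨n, Or.inr ?_⟩
      rw [mul_inv_rev, hinv, ← zpow_neg]
      rw [← hconj n, ← mul_assoc, ← mul_assoc, hx, one_mul]

/-- commutators in a dihedral group are rotations -/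
lemma dih_comm (x y : A) (hx : x * x = 1) (hy : y * y = 1) (g h : A)
    (hg : g ∈ Subgroup.closure ({x, y} : Set A)) (hh : h ∈ Subgroup.closure ({x, y} : Set A)) :
    ⁅g, h⁆ ∈ Subgroup.zpowers (x * y) := by
  have hinv : x⁻¹ = x := inv_eq_of_mul_eq_one_left hx
  have hyinv : y⁻¹ = y := inv_eq_of_mul_eq_one_left hy
  have hconj : ∀ n : ℤ, x * (x * y) ^ n = (x * y) ^ (-n) * x := by
    intro n
    have h1 : x * (x * y) * x⁻¹ = (x * y)⁻¹ := by
      rw [mul_inv_rev, hinv, hyinv, ← mul_assoc, hx, one_mul]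
    have h2 : x * (x * y) ^ n * x⁻¹ = (x * y) ^ (-n) := by
      rw [← conj_zpow, h1, inv_zpow, zpow_neg]
    rw [← h2, inv_mul_cancel_right]
  obtain ⟨n, hn⟩ := dih_form x y hx hy g hg
  obtain ⟨m, hm⟩ := dih_form x y hx hy h hh
  set r := x * y with hr
  rw [commutatorElement_def, Subgroup.mem_zpowers_iff]
  rcases hn with rfl | rfl <;> rcases hm with rfl | rfl
  · refine ⟨0, ?_⟩
    rw [← zpow_add, add_comm n m, zpow_add, zpow_zero]
    group
  · -- [r^n, r^m x] = r^n r^m x r^-n x r^-m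
    refine ⟨n + m + n - m, ?_⟩
    rw [mul_inv_rev, hinv]
    have e1 : r ^ n * (r ^ m * x) * (r ^ n)⁻¹ * (x * (r ^ m)⁻¹) =
        r ^ n * r ^ m * (x * r ^ (-n)) * x * r ^ (-m) := by
      simp only [zpow_neg, mul_assoc]
    rw [e1, hconj]
    have e2 : r ^ n * r ^ m * (r ^ (-(-n)) * x) * x * r ^ (-m) =
        r ^ n * r ^ m * r ^ (-(-n)) * (x * x) * r ^ (-m) := by simp only [mul_assoc]
    rw [e2, hx, mul_one, ← zpow_add, ← zpow_add, ← zpow_add]
    congr 1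
    ring
  · refine ⟨n - m - n - m, ?_⟩
    rw [mul_inv_rev, hinv]
    have e1 : r ^ n * x * r ^ m * (x * (r ^ n)⁻¹) * (r ^ m)⁻¹ =
        r ^ n * (x * r ^ m) * x * r ^ (-n) * r ^ (-m) := by
      simp only [zpow_neg, mul_assoc]
    rw [e1, hconj]
    have e2 : r ^ n * (r ^ (-m) * x) * x * r ^ (-n) * r ^ (-m) =
        r ^ n * r ^ (-m) * (x * x) * r ^ (-n) * r ^ (-m) := by simp only [mul_assoc]
    rw [e2, hx, mul_one, ← zpow_add, ← zpow_add, ← zpow_add]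
    congr 1
  · -- r^n x r^m x x r^-n x r^-m
    refine ⟨n - m + n - m, ?_⟩
    rw [mul_inv_rev, mul_inv_rev, hinv]
    have e1 : r ^ n * x * (r ^ m * x) * (x * (r ^ n)⁻¹) * (x * (r ^ m)⁻¹) =
        r ^ n * (x * r ^ m) * (x * x) * r ^ (-n) * x * r ^ (-m) := by
      simp only [zpow_neg, mul_assoc]
    rw [e1, hx, mul_one, hconj]
    have e2 : r ^ n * (r ^ (-m) * x) * r ^ (-n) * x * r ^ (-m) =
        r ^ n * r ^ (-m) * (x * r ^ (-n)) * x * r ^ (-m) := by simp only [mul_assoc]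
    rw [e2, hconj]
    have e3 : r ^ n * r ^ (-m) * (r ^ (-(-n)) * x) * x * r ^ (-m) =
        r ^ n * r ^ (-m) * r ^ (-(-n)) * (x * x) * r ^ (-m) := by simp only [mul_assoc]
    rw [e3, hx, mul_one, ← zpow_add, ← zpow_add, ← zpow_add]
    congr 1
    ring

end Dihedral

/-- lamp configurations with values in prescribed subgroups -/
def lampSub (H : ℕ → Subgroup (Perm ℤ)) : Subgroup (Perm X) where
  carrier := {g | ∃ φ : ℕ → ℤ → Perm ℤ, (∀ s j, φ s j ∈ H s) ∧ g = Lm φ}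
  one_mem' := ⟨1, fun s _ => (H s).one_mem, (map_one Lm).symm⟩
  mul_mem' := by
    rintro _ _ ⟨φ, hφ, rfl⟩ ⟨ψ, hψ, rfl⟩
    exact ⟨φ * ψ, fun s j => (H s).mul_mem (hφ s j) (hψ s j), (map_mul Lm φ ψ).symm⟩
  inv_mem' := by
    rintro _ ⟨φ, hφ, rfl⟩
    exact ⟨φ⁻¹, fun s j => (H s).inv_mem (hφ s j), (map_inv Lm φ).symm⟩

lemma lampSub_comm {H H' : ℕ → Subgroup (Perm ℤ)}
    (h : ∀ s, ∀ x ∈ H s, ∀ y ∈ H s, ⁅x, y⁆ ∈ H' s) (g₁ g₂ : Perm X) (h₁ : g₁ ∈ lampSub H)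
    (h₂ : g₂ ∈ lampSub H) : ⁅g₁, g₂⁆ ∈ lampSub H' := by
  obtain ⟨φ, hφ, rfl⟩ := h₁
  obtain ⟨ψ, hψ, rfl⟩ := h₂
  refine ⟨fun s j => ⁅φ s j, ψ s j⁆, fun s j => h s _ (hφ s j) _ (hψ s j), ?_⟩
  rw [← map_commutatorElement]
  rfl

/-- configurations followed by a shift -/
def shiftSub (H : ℕ → Subgroup (Perm ℤ)) : Subgroup (Perm X) where
  carrier := {g | ∃ φ : ℕ → ℤ → Perm ℤ, (∀ s j, φ s j ∈ H s) ∧ ∃ n : ℤ, g = Lm φ * T ^ n}
  one_mem' := ⟨1, fun s _ => (H s).one_mem, 0, by rw [map_one, zpow_zero, one_mul]⟩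
  mul_mem' := by
    rintro _ _ ⟨φ, hφ, n, rfl⟩ ⟨ψ, hψ, m, rfl⟩
    refine ⟨φ * (fun s j => ψ s (j - n)), fun s j => (H s).mul_mem (hφ s j) (hψ s _), n + m, ?_⟩
    rw [map_mul, ← T_conj, zpow_add]
    group
  inv_mem' := by
    rintro _ ⟨φ, hφ, n, rfl⟩
    refine ⟨fun s j => φ⁻¹ s (j - (-n)), fun s j => (H s).inv_mem (hφ s _), -n, ?_⟩
    rw [← T_conj (-n) φ⁻¹, map_inv]
    group

lemma shiftSub_comm {H : ℕ → Subgroup (Perm ℤ)} (g₁ g₂ : Perm X) (h₁ : g₁ ∈ shiftSub H)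
    (h₂ : g₂ ∈ shiftSub H) : ⁅g₁, g₂⁆ ∈ lampSub H := by
  obtain ⟨φ, hφ, n, rfl⟩ := h₁
  obtain ⟨ψ, hψ, m, rfl⟩ := h₂
  have h1 : ⁅Lm φ * T ^ n, Lm ψ * T ^ m⁆ =
      Lm φ * (T ^ n * Lm ψ * (T ^ n)⁻¹) * (T ^ m * (Lm φ)⁻¹ * (T ^ m)⁻¹) * (Lm ψ)⁻¹ := by
    rw [commutatorElement_def]
    have h2 : (T ^ n)⁻¹ * T ^ m = T ^ m * (T ^ n)⁻¹ := by
      rw [← zpow_neg, ← zpow_add, ← zpow_add, add_comm]
    simp only [mul_inv_rev, mul_assoc]
    congr 1
    congr 1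
    congr 1
    rw [← mul_assoc (T ^ m) (T ^ n)⁻¹, ← h2, mul_assoc]
  rw [h1, T_conj, ← map_inv, T_conj, ← map_inv]
  refine (lampSub H).mul_mem ((lampSub H).mul_mem ((lampSub H).mul_mem ?_ ?_) ?_) ?_
  · exact ⟨φ, hφ, rfl⟩
  · exact ⟨_, fun s j => hψ s _, rfl⟩
  · exact ⟨_, fun s j => (H s).inv_mem (hφ s _), rfl⟩
  · exact ⟨_, fun s j => (H s).inv_mem (hψ s j), rfl⟩

section Params

variable (k q : ℕ → ℕ)

theorem derived_three : derivedSeries (GG k q) 3 = ⊥ := by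
  set H1 : ℕ → Subgroup (Perm ℤ) := fun s => Subgroup.closure {alpha (q s), beta (q s)} with hH1
  set H2 : ℕ → Subgroup (Perm ℤ) := fun s => Subgroup.zpowers (alpha (q s) * beta (q s)) with hH2
  set H3 : ℕ → Subgroup (Perm ℤ) := fun _ => ⊥ with hH3
  have hGG : GG k q ≤ shiftSub H1 := by
    rw [Subgroup.closure_le]
    intro g hg
    rcases hg with rfl | rfl | hg
    · exact ⟨1, fun s _ => (H1 s).one_mem, 1, by rw [map_one, one_mul, zpow_one]⟩
    · refine ⟨_, ?_, 0, by rw [zpow_zero, mul_one]; rfl⟩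
      intro s j
      split_ifs
      · exact Subgroup.subset_closure (by simp)
      · exact (H1 s).one_mem
    · rw [Set.mem_singleton_iff] at hg
      subst hg
      refine ⟨_, ?_, 0, by rw [zpow_zero, mul_one]; rfl⟩
      intro s j
      split_ifs
      · exact Subgroup.subset_closure (by simp)
      · exact (H1 s).one_mem
  have hcoe : ∀ g h : GG k q, ((⁅g, h⁆ : GG k q) : Perm X) = ⁅(g : Perm X), (h : Perm X)⁆ := by
    intro g h; rfl
  have h1 : derivedSeries (GG k q) 1 ≤ (lampSub H1).comap (GG k q).subtype := by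
    rw [derivedSeries_succ, Subgroup.commutator_le]
    intro g _ h _
    rw [Subgroup.mem_comap, Subgroup.subtype_apply, hcoe]
    exact shiftSub_comm _ _ (hGG g.2) (hGG h.2)
  have h2 : derivedSeries (GG k q) 2 ≤ (lampSub H2).comap (GG k q).subtype := by
    rw [derivedSeries_succ, Subgroup.commutator_le]
    intro g hg h hh
    rw [Subgroup.mem_comap, Subgroup.subtype_apply, hcoe]
    exact lampSub_comm (fun s x hx y hy => dih_comm _ _ (alpha_mul_self _) (beta_mul_self _) x y hx hy)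
      _ _ (h1 hg) (h1 hh)
  have h3 : derivedSeries (GG k q) 3 ≤ (lampSub H3).comap (GG k q).subtype := by
    rw [derivedSeries_succ, Subgroup.commutator_le]
    intro g hg h hh
    rw [Subgroup.mem_comap, Subgroup.subtype_apply, hcoe]
    refine lampSub_comm (fun s x hx y hy => ?_) _ _ (h2 hg) (h2 hh)
    obtain ⟨n, rfl⟩ := Subgroup.mem_zpowers_iff.mp hx
    obtain ⟨m, rfl⟩ := Subgroup.mem_zpowers_iff.mp hy
    rw [hH3, Subgroup.mem_bot, commutatorElement_eq_one_iff_mul_comm]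
    exact (Commute.refl _).zpow_zpow n m
  rw [eq_bot_iff]
  intro g hg
  obtain ⟨φ, hφ, h4⟩ := h3 hg
  rw [Subgroup.mem_bot]
  apply Subtype.ext
  have h5 : φ = 1 := by
    funext s j
    have := hφ s j
    rw [hH3, Subgroup.mem_bot] at this
    exact this
  rw [h5, map_one] at h4
  exact h4

end Params

end Pool.Agent.AN90
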