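import Pool.Agent.AN90.Seq
import Pool.Agent.AN90.Solv

/-!
The groups with Foelner function below `exp (n ω(n))` and infinite Assouad-Nagata dimension.
-/

set_option autoImplicit false

namespace Pool.Agent.AN90

open Filter

open Classical in
theorem main (ω : ℕ → ℝ) (hω : Tendsto ω atTop atTop) (f : ℕ → ℕ) :
    ∃ k : ℕ → ℕ, ∃ q : ℕ → ℕ,
      (∃ c : ℝ, 1 < c ∧ ∀ n : ℕ,
        c ^ n ≤ (({g : GG k q | (cay (SS k q)).dist 1 g ≤ n}.ncard : ℕ) : ℝ)) ∧
      (∃ n₀ : ℕ, ∀ n : ℕ, n₀ ≤ n → ∃ F : Finset (GG k q), F.Nonempty ∧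
        n * (F.filter (fun g => ∃ s ∈ SS k q, g * s ∉ F ∨ g * s⁻¹ ∉ F)).card ≤ F.card ∧
        (F.card : ℝ) ≤ Real.exp (n * ω n)) ∧
      (∀ N₀ : ℕ, ∃ N : ℕ, N₀ ≤ N ∧ ∀ n : ℕ, N ≤ n → n ≤ f N →
        ∃ F : Finset (GG k q), F.Nonempty ∧
          n * (F.filter (fun g => ∃ s ∈ SS k q, g * s ∉ F ∨ g * s⁻¹ ∉ F)).card ≤ F.card ∧
          F.card ≤ 64 ^ n) ∧
      ¬ ∃ (d C : ℕ), ∀ r : ℕ, 1 ≤ r →
        ∃ (c : GG k q → Fin (d + 1)) (κ : GG k q → GG k q), ∀ x y : GG k q, c x = c y →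
          (κ x = κ y → (cay (SS k q)).dist x y ≤ C * r) ∧
          (κ x ≠ κ y → r < (cay (SS k q)).dist x y) := by
  obtain ⟨e, h1, he, h3⟩ := seq_exists ω hω f
  set k : ℕ → ℕ := fun s => 2 ^ e s with hk
  set q : ℕ → ℕ := fun s => s + 1 with hq
  have hkpos : ∀ s, 0 < k s := fun s => by simp only [hk]; positivity
  have hsle : ∀ s, s ≤ k s := by
    intro s
    have h4 : s ≤ e s := by
      induction s with
      | zero => omega
      | succ s ih => have := he s; omega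
    have h5 : e s < 2 ^ e s := Nat.lt_two_pow_self
    simp only [hk]
    omega
  have hmono : ∀ s t, s ≤ t → k s ≤ k t := fun s t hst =>
    Nat.pow_le_pow_right (by norm_num) (e_le he hst)
  refine ⟨k, q, exp_growth (fun s => by simp [hq]) (fun N => ⟨N, hsle N⟩), ?_, ?_, ?_⟩
  · -- the bound at all large scales
    obtain ⟨n0, hn0⟩ := (tendsto_atTop.mp hω (Real.log 32)).exists_forall_of_atTop
    refine ⟨n0 + 1, fun n hn => ?_⟩
    have hn1 : 1 ≤ n := by omega
    have hex : ∃ S, 2 * n ≤ k S := ⟨2 * n, hsle _⟩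
    set S := Nat.find hex with hS
    have hSspec : 2 * n ≤ k S := Nat.find_spec hex
    have hSmin : ∀ i, i < S → k i < 2 * n := fun i hi => not_le.mp (Nat.find_min hex hi)
    obtain ⟨F, hF1, hF2, hF3⟩ := folner_exists (q := q) hkpos S n hn1
      (fun s hs => hSspec.trans (hmono S s (not_lt.mp hs)))
    refine ⟨F, hF1, hF2, ?_⟩
    have h5 : F.card ≤ (32 * PP S ^ 4) ^ n := by
      calc F.card ≤ 2 * n * ((∏ i : Fin S, (pc (q i)) ^ (2 * k i)) * 4 ^ (2 * n)) := hF3
        _ ≤ 2 ^ n * ((PP S ^ 4) ^ n * 4 ^ (2 * n)) := by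
            apply Nat.mul_le_mul (two_mul_le_pow n hn1)
            apply Nat.mul_le_mul_right
            exact prod_le_pow k S n (fun i hi => (hSmin i hi).le)
        _ = (32 * PP S ^ 4) ^ n := by
            rw [pow_mul, ← mul_pow, ← mul_pow]
            congr 1
            ring
    have hPP : 0 < PP S := Finset.prod_pos (fun i _ => pc_pos _)
    have hlog : Real.log (32 * (PP S : ℝ) ^ 4) ≤ ω n := by
      rcases Nat.eq_zero_or_pos S with h0 | h0
      · have h6 : PP S = 1 := by rw [h0]; simp [PP]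
        rw [h6]
        simp only [Nat.cast_one, one_pow, mul_one]
        exact hn0 n (by omega)
      · obtain ⟨S', hS'⟩ : ∃ S', S = S' + 1 := ⟨S - 1, by omega⟩
        rw [hS']
        exact h1 S' n (hSmin S' (by omega))
    have hpos : (0 : ℝ) < 32 * (PP S : ℝ) ^ 4 := by
      have : (0 : ℝ) < PP S := by exact_mod_cast hPP
      positivity
    calc (F.card : ℝ) ≤ (32 * (PP S : ℝ) ^ 4) ^ n := by exact_mod_cast h5
      _ = Real.exp (n * Real.log (32 * (PP S : ℝ) ^ 4)) := by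
          rw [Real.exp_nat_mul, Real.exp_log hpos]
      _ ≤ Real.exp (n * ω n) := by
          apply Real.exp_le_exp.mpr
          exact mul_le_mul_of_nonneg_left hlog (Nat.cast_nonneg n)
  · -- long windows of scales with an exponential bound
    intro N₀
    set Q := ∏ i ∈ Finset.range (N₀ + 1), pc (i + 1) ^ (2 * 2 ^ e i) with hQ
    have hQpos : 0 < Q := Finset.prod_pos (fun i _ => pow_pos (pc_pos _) _)
    refine ⟨Q + N₀, by omega, fun n hn hnf => ?_⟩
    have hn1 : 1 ≤ n := by omega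
    obtain ⟨F, hF1, hF2, hF3⟩ := folner_exists (q := q) hkpos (N₀ + 1) n hn1 (by
      intro s hs
      have h4 : 2 * f (Q + N₀) ≤ k (N₀ + 1) := h3 N₀
      have h5 := hmono (N₀ + 1) s (not_lt.mp hs)
      omega)
    refine ⟨F, hF1, hF2, ?_⟩
    calc F.card ≤ 2 * n * ((∏ i : Fin (N₀ + 1), (pc (q i)) ^ (2 * k i)) * 4 ^ (2 * n)) := hF3
      _ = 2 * n * (Q * 4 ^ (2 * n)) := by
          rw [hQ, ← Fin.prod_univ_eq_prod_range (fun i => pc (i + 1) ^ (2 * 2 ^ e i)) (N₀ + 1)]
      _ ≤ 2 ^ n * (2 ^ n * 4 ^ (2 * n)) := by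
          apply Nat.mul_le_mul (two_mul_le_pow n hn1)
          apply Nat.mul_le_mul_right
          have h6 : n < 2 ^ n := Nat.lt_two_pow_self
          omega
      _ = 64 ^ n := by
          rw [pow_mul, ← mul_pow, ← mul_pow]
          norm_num
  · -- infinite dimension
    exact not_AN hkpos _ _ (fun s => scales_of he s) (windows_of he)

end Pool.Agent.AN90
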