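import Pool.Agent.AN90.Folner

/-!
Choice of the scales.
-/

set_option autoImplicit false

namespace Pool.Agent.AN90

open Filter

/-- product of the orders of the first `s` lamp groups -/
noncomputable def PP (s : ℕ) : ℕ := ∏ i ∈ Finset.range s, pc (i + 1)

lemma next_exists (ω : ℕ → ℝ) (hω : Tendsto ω atTop atTop) (f : ℕ → ℕ) (s e Q : ℕ) :
    ∃ e' : ℕ, (∀ n : ℕ, 2 ^ e' < 2 * n → Real.log (32 * (PP (s + 2) : ℝ) ^ 4) ≤ ω n) ∧
      e + s + 2 ≤ e' ∧ 2 * f (Q + s) ≤ 2 ^ e' := by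
  obtain ⟨n0, hn0⟩ := (tendsto_atTop.mp hω (Real.log (32 * (PP (s + 2) : ℝ) ^ 4))).exists_forall_of_atTop
  refine ⟨2 * n0 + (e + s + 2) + 2 * f (Q + s), ?_, by omega, ?_⟩
  · intro n hn
    apply hn0
    have h1 : 2 * n0 + (e + s + 2) + 2 * f (Q + s) < 2 ^ (2 * n0 + (e + s + 2) + 2 * f (Q + s)) :=
      Nat.lt_two_pow_self
    omega
  · have h1 : 2 * n0 + (e + s + 2) + 2 * f (Q + s) < 2 ^ (2 * n0 + (e + s + 2) + 2 * f (Q + s)) :=
      Nat.lt_two_pow_self
    omega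

/-- The scales: `k s = 2 ^ e s`. -/
theorem seq_exists (ω : ℕ → ℝ) (hω : Tendsto ω atTop atTop) (f : ℕ → ℕ) :
    ∃ e : ℕ → ℕ,
      (∀ s n : ℕ, 2 ^ e s < 2 * n → Real.log (32 * (PP (s + 1) : ℝ) ^ 4) ≤ ω n) ∧
      (∀ s, e s + s + 2 ≤ e (s + 1)) ∧
      (∀ s, 2 * f ((∏ i ∈ Finset.range (s + 1), pc (i + 1) ^ (2 * 2 ^ e i)) + s) ≤ 2 ^ e (s + 1)) := by
  classical
  choose nx h1 h2 h3 using next_exists ω hω f
  obtain ⟨n0, hn0⟩ := (tendsto_atTop.mp hω (Real.log (32 * (PP 1 : ℝ) ^ 4))).exists_forall_of_atTop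
  -- states
  set st : ℕ → ℕ × ℕ := fun s => Nat.rec (2 * n0, pc 1 ^ (2 * 2 ^ (2 * n0)))
    (fun s st => (nx s st.1 st.2, st.2 * pc (s + 2) ^ (2 * 2 ^ (nx s st.1 st.2)))) s with hst
  have hst0 : st 0 = (2 * n0, pc 1 ^ (2 * 2 ^ (2 * n0))) := rfl
  have hsts : ∀ s, st (s + 1) = (nx s (st s).1 (st s).2,
      (st s).2 * pc (s + 2) ^ (2 * 2 ^ (nx s (st s).1 (st s).2))) := fun s => rfl
  have hprod : ∀ s, (st s).2 = ∏ i ∈ Finset.range (s + 1), pc (i + 1) ^ (2 * 2 ^ (st i).1) := by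
    intro s
    induction s with
    | zero => simp [hst0]
    | succ s ih =>
      rw [Finset.prod_range_succ, ← ih, hsts]
  refine ⟨fun s => (st s).1, ?_, ?_, ?_⟩
  · intro s n hn
    cases s with
    | zero =>
      apply hn0
      have h4 : 2 * n0 < 2 ^ (2 * n0) := Nat.lt_two_pow_self
      simp only [hst0] at hn
      omega
    | succ s =>
      simp only [hsts] at hn
      exact h1 s (st s).1 (st s).2 n hn
  · intro s
    simp only [hsts]
    exact h2 s (st s).1 (st s).2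
  · intro s
    have := h3 s (st s).1 (st s).2
    simp only [hsts]
    rw [← hprod]
    exact this

section Main

variable {e : ℕ → ℕ} (he : ∀ s, e s + s + 2 ≤ e (s + 1))

include he

lemma e_lt {s t : ℕ} (h : s < t) : e s + s + 2 ≤ e t := by
  induction t with
  | zero => omega
  | succ t ih =>
    rcases Nat.lt_succ_iff_lt_or_eq.mp h with h' | rfl
    · have := ih h'
      have := he t
      omega
    · exact he s

lemma e_le {s t : ℕ} (h : s ≤ t) : e s ≤ e t := by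
  rcases Nat.lt_or_eq_of_le h with h' | rfl
  · have := e_lt he h'; omega
  · exact le_rfl

lemma scales_of (s0 : ℕ) : Scales (fun s => 2 ^ e s) s0 (if s0 = 0 then 1 else 2 * 2 ^ e (s0 - 1))
    (2 ^ e s0 / (if s0 = 0 then 1 else 2 * 2 ^ e (s0 - 1))) where
  pos s := by positivity
  below s hs := by
    have h0 : s0 ≠ 0 := by omega
    rw [if_neg h0]
    constructor
    · apply Nat.mul_dvd_mul_left
      exact pow_dvd_pow 2 (e_le he (by omega))
    · have h1 : 2 * 2 ^ e s = 2 ^ (e s + 1) := by ring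
      simp only [h1]
      exact pow_dvd_pow 2 (by have := e_lt he hs; omega)
  fits := Nat.div_mul_le_self _ _
  Lpos := by split_ifs <;> positivity
  above s hs := by
    have h1 : 2 * 2 ^ e s0 = 2 ^ (e s0 + 1) := by ring
    simp only [h1]
    exact Nat.pow_le_pow_right (by norm_num) (by have := e_lt he hs; omega)

lemma windows_of (N : ℕ) : ∃ s, N ≤ 2 ^ e s / (if s = 0 then 1 else 2 * 2 ^ e (s - 1)) ∧
    N ≤ s + 1 := by
  refine ⟨N + 1, ?_, by omega⟩
  rw [if_neg (by omega), Nat.add_sub_cancel, Nat.le_div_iff_mul_le (by positivity)]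
  have h1 : N < 2 ^ N := Nat.lt_two_pow_self
  calc N * (2 * 2 ^ e N) ≤ 2 ^ N * (2 * 2 ^ e N) := Nat.mul_le_mul_right _ h1.le
    _ = 2 ^ (N + 1 + e N) := by rw [pow_add, pow_add]; ring
    _ ≤ 2 ^ e (N + 1) := Nat.pow_le_pow_right (by norm_num) (by have := he N; omega)

end Main

lemma two_mul_le_pow (n : ℕ) (hn : 1 ≤ n) : 2 * n ≤ 2 ^ n := by
  induction n with
  | zero => omega
  | succ n ih =>
    rcases Nat.eq_zero_or_pos n with h | h
    · subst h; norm_num
    · have := ih h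
      rw [pow_succ]
      omega

/-- the product of lamp orders is at most a power of `PP` -/
lemma prod_le_pow (k : ℕ → ℕ) (S n : ℕ) (h : ∀ i < S, k i ≤ 2 * n) :
    (∏ i : Fin S, pc ((i : ℕ) + 1) ^ (2 * k i)) ≤ (PP S ^ 4) ^ n := by
  rw [Fin.prod_univ_eq_prod_range (fun i => pc (i + 1) ^ (2 * k i)) S, PP, ← pow_mul,
    ← Finset.prod_pow]
  apply Finset.prod_le_prod (fun _ _ => Nat.zero_le _)
  intro i hi
  apply Nat.pow_le_pow_right (pc_pos _)
  have := h i (Finset.mem_range.mp hi)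
  omega

end Pool.Agent.AN90
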