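import Mathlib

/-!
Elementary facts about the word metric of a group, written with the graph `SimpleGraph.fromRel`.
-/

set_option autoImplicit false

namespace Pool.Agent.AN90

section Word

variable {G : Type} [Group G]

/-- Cayley graph of `G` with respect to `S` -/
abbrev cay (S : Finset G) : SimpleGraph G := SimpleGraph.fromRel (fun x y : G => x⁻¹ * y ∈ S)

lemma cay_adj_mul (S : Finset G) (x s : G) (hs : s ∈ S ∨ s⁻¹ ∈ S) (h1 : s ≠ 1) :
    (cay S).Adj x (x * s) := by
  rw [SimpleGraph.fromRel_adj]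
  refine ⟨fun h => h1 ?_, ?_⟩
  · exact (mul_eq_left (a := x)).mp h.symm
  · simpa using hs

lemma exists_walk_list (S : Finset G) (l : List G) (hl : ∀ y ∈ l, y ∈ S ∨ y⁻¹ ∈ S) (x z : G)
    (hz : z = x * l.prod) : ∃ p : (cay S).Walk x z, p.length ≤ l.length := by
  induction l generalizing x with
  | nil =>
    have : z = x := by simpa using hz
    subst this
    exact ⟨SimpleGraph.Walk.nil, le_rfl⟩
  | cons s l ih =>
    obtain ⟨p, hp⟩ := ih (fun y hy => hl y (List.mem_cons_of_mem _ hy)) (x * s)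
      (by rw [hz, List.prod_cons, mul_assoc])
    by_cases h1 : s = 1
    · subst h1
      have hx : x * 1 = x := mul_one x
      refine ⟨p.copy hx rfl, ?_⟩
      rw [SimpleGraph.Walk.length_copy, List.length_cons]
      omega
    · refine ⟨SimpleGraph.Walk.cons (cay_adj_mul S x s (hl s List.mem_cons_self) h1) p, ?_⟩
      rw [SimpleGraph.Walk.length_cons, List.length_cons]
      omega

lemma dist_list_le (S : Finset G) (l : List G) (hl : ∀ y ∈ l, y ∈ S ∨ y⁻¹ ∈ S) (x : G) :
    (cay S).dist x (x * l.prod) ≤ l.length := by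
  obtain ⟨p, hp⟩ := exists_walk_list S l hl x _ rfl
  exact (SimpleGraph.dist_le p).trans hp

lemma reachable_all (S : Finset G) (hS : Subgroup.closure (S : Set G) = ⊤) (x y : G) :
    (cay S).Reachable x y := by
  have h : x⁻¹ * y ∈ Subgroup.closure (S : Set G) := by rw [hS]; trivial
  rw [← Subgroup.mem_toSubmonoid, Subgroup.closure_toSubmonoid] at h
  obtain ⟨l, hl, hp⟩ := Submonoid.exists_list_of_mem_closure h
  obtain ⟨p, -⟩ := exists_walk_list S l (fun y hy => by simpa using hl y hy) x y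
    (by rw [hp]; group)
  exact ⟨p⟩

lemma lip_walk (S : Finset G) (F : G → ℤ) (hF : ∀ x, ∀ s ∈ S, |F (x * s) - F x| ≤ 1) {x y : G}
    (p : (cay S).Walk x y) : |F x - F y| ≤ (p.length : ℤ) := by
  induction p with
  | nil => simp
  | @cons u v w h q ih =>
    rw [SimpleGraph.fromRel_adj] at h
    have h1 : |F u - F v| ≤ 1 := by
      rcases h.2 with h2 | h2
      · have := hF u _ h2
        rw [mul_inv_cancel_left] at this
        rwa [abs_sub_comm]
      · have := hF v _ h2
        rwa [mul_inv_cancel_left] at this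
    have h3 : |F u - F w| ≤ |F u - F v| + |F v - F w| := abs_sub_le _ _ _
    rw [SimpleGraph.Walk.length_cons]
    push_cast
    linarith

lemma lip_dist (S : Finset G) (hS : Subgroup.closure (S : Set G) = ⊤) (F : G → ℤ)
    (hF : ∀ x, ∀ s ∈ S, |F (x * s) - F x| ≤ 1) (x y : G) :
    |F x - F y| ≤ ((cay S).dist x y : ℤ) := by
  obtain ⟨p, hp⟩ := (reachable_all S hS x y).exists_walk_length_eq_dist
  rw [← hp]
  exact lip_walk S F hF p

/-- products of at most `n` generators -/
def wordSet (S : Finset G) : ℕ → Set G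
  | 0 => {1}
  | (n + 1) => wordSet S n ∪ Set.image2 (fun s h => s * h) {s | s ∈ S ∨ s⁻¹ ∈ S} (wordSet S n)

lemma wordSet_finite (S : Finset G) (n : ℕ) : (wordSet S n).Finite := by
  induction n with
  | zero => exact Set.finite_singleton _
  | succ n ih =>
    refine ih.union (Set.Finite.image2 _ ?_ ih)
    have h1 : ({s : G | s ∈ S ∨ s⁻¹ ∈ S}) = (S : Set G) ∪ (fun s => s⁻¹) ⁻¹' (S : Set G) := by
      ext s; simp
    rw [h1]
    exact S.finite_toSet.union (S.finite_toSet.preimage (inv_injective.injOn))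

lemma wordSet_mono (S : Finset G) {n m : ℕ} (h : n ≤ m) : wordSet S n ⊆ wordSet S m := by
  induction h with
  | refl => exact subset_rfl
  | step _ ih => exact ih.trans Set.subset_union_left

lemma walk_mem_wordSet (S : Finset G) {x y : G} (p : (cay S).Walk x y) :
    x⁻¹ * y ∈ wordSet S p.length := by
  induction p with
  | nil => simp [wordSet]
  | @cons u v w h q ih =>
    rw [SimpleGraph.fromRel_adj] at h
    rw [SimpleGraph.Walk.length_cons]
    refine Or.inr ⟨u⁻¹ * v, ?_, v⁻¹ * w, ih, by group⟩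
    simpa using h.2

lemma ball_finite (S : Finset G) (hS : Subgroup.closure (S : Set G) = ⊤) (n : ℕ) :
    {g : G | (cay S).dist 1 g ≤ n}.Finite := by
  refine (wordSet_finite S n).subset (fun g hg => ?_)
  obtain ⟨p, hp⟩ := (reachable_all S hS 1 g).exists_walk_length_eq_dist
  have := walk_mem_wordSet S p
  rw [inv_one, one_mul] at this
  exact wordSet_mono S (hp.trans_le hg) this

lemma card_le_ball (S : Finset G) (hS : Subgroup.closure (S : Set G) = ⊤) (n : ℕ)
    {A : Type} [Fintype A] (f : A → G) (hf : Function.Injective f)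
    (hd : ∀ a, (cay S).dist 1 (f a) ≤ n) :
    Fintype.card A ≤ {g : G | (cay S).dist 1 g ≤ n}.ncard := by
  have h1 : (Set.range f).ncard = Fintype.card A := by
    rw [← Set.image_univ, Set.ncard_image_of_injective _ hf, Set.ncard_univ, Nat.card_eq_fintype_card]
  rw [← h1]
  exact Set.ncard_le_ncard (by rintro _ ⟨a, rfl⟩; exact hd a) (ball_finite S hS n)

end Word

section Folner

variable {G : Type} [Group G]

/-- Foelner sets from finite subgroups: `F = H {1, t, ..., t^(N-1)}`. -/
lemma folner_of_subgroup [DecidableEq G] (S : Finset G) (t : G) (H : Subgroup G) [Finite H] (n : ℕ)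
    (hn : 1 ≤ n) (hS : ∀ s ∈ S, s = t ∨ ∀ p : ℕ, p < 2 * n → t ^ p * s * (t ^ p)⁻¹ ∈ H)
    (hH : ∀ p : ℕ, 0 < p → t ^ p ∉ H) :
    ∃ F : Finset G, F.Nonempty ∧
      n * (F.filter (fun g => ∃ s ∈ S, g * s ∉ F ∨ g * s⁻¹ ∉ F)).card ≤ F.card ∧
      F.card = 2 * n * Nat.card H := by
  classical
  letI : Fintype H := Fintype.ofFinite H
  set N := 2 * n with hN
  set Hf : Finset G := (H : Set G).toFinset with hHf
  have hmem : ∀ g, g ∈ Hf ↔ g ∈ H := fun g => by simp [hHf]
  have hcardH : Hf.card = Nat.card H := by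
    rw [hHf, Set.toFinset_card, Nat.card_eq_fintype_card]
    rfl
  set F : Finset G := (Hf ×ˢ Finset.range N).image (fun q => q.1 * t ^ q.2) with hF
  have hmemF : ∀ g, g ∈ F ↔ ∃ h ∈ H, ∃ p < N, g = h * t ^ p := by
    intro g
    rw [hF, Finset.mem_image]
    constructor
    · rintro ⟨⟨h, p⟩, hq, rfl⟩
      rw [Finset.mem_product] at hq
      exact ⟨h, (hmem h).mp hq.1, p, Finset.mem_range.mp hq.2, rfl⟩
    · rintro ⟨h, hh, p, hp, rfl⟩
      exact ⟨(h, p), Finset.mem_product.mpr ⟨(hmem h).mpr hh, Finset.mem_range.mpr hp⟩, rfl⟩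
  have hinj : Set.InjOn (fun q : G × ℕ => q.1 * t ^ q.2) (Hf ×ˢ Finset.range N : Finset (G × ℕ)) := by
    rintro ⟨h, p⟩ hq ⟨h', p'⟩ hq' heq
    simp only [Finset.coe_product, Set.mem_prod, Finset.mem_coe, Finset.mem_range, hmem] at hq hq' heq
    have key : ∀ (h h' : G) (p p' : ℕ), h ∈ H → h' ∈ H → h * t ^ p = h' * t ^ p' → p ≤ p' → p = p' := by
      intro h h' p p' hh hh' heq hle
      by_contra hne
      have hlt : 0 < p' - p := by omega
      apply hH (p' - p) hlt
      have : t ^ p' = t ^ (p' - p) * t ^ p := by rw [← pow_add]; congr 1; omega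
      rw [this, ← mul_assoc] at heq
      have h2 := mul_right_cancel heq
      have h3 : t ^ (p' - p) = h'⁻¹ * h := by rw [h2]; group
      rw [h3]
      exact H.mul_mem (H.inv_mem hh') hh
    have hp : p = p' := by
      rcases le_total p p' with hle | hle
      · exact key h h' p p' hq.1 hq'.1 heq hle
      · exact (key h' h p' p hq'.1 hq.1 heq.symm hle).symm
    subst hp
    simp only [mul_right_cancel heq]
  have hcardF : F.card = 2 * n * Nat.card H := by
    rw [hF, Finset.card_image_of_injOn hinj, Finset.card_product, Finset.card_range, hcardH, hN]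
    ring
  have hNpos : 0 < N := by omega
  refine ⟨F, ⟨1, (hmemF 1).mpr ⟨1, H.one_mem, 0, hNpos, by simp⟩⟩, ?_, hcardF⟩
  -- the boundary
  have hbd : F.filter (fun g => ∃ s ∈ S, g * s ∉ F ∨ g * s⁻¹ ∉ F) ⊆
      Hf.image (fun h => h * t ^ 0) ∪ Hf.image (fun h => h * t ^ (N - 1)) := by
    intro g hg
    obtain ⟨hgF, s, hs, hgs⟩ := Finset.mem_filter.mp hg
    obtain ⟨h, hh, p, hp, rfl⟩ := (hmemF g).mp hgF
    by_contra hnot
    rw [Finset.mem_union, Finset.mem_image, Finset.mem_image, not_or] at hnot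
    have hp0 : p ≠ 0 := by
      rintro rfl
      exact hnot.1 ⟨h, (hmem h).mpr hh, rfl⟩
    have hp1 : p ≠ N - 1 := by
      rintro rfl
      exact hnot.2 ⟨h, (hmem h).mpr hh, rfl⟩
    rcases hS s hs with rfl | hs'
    · rcases hgs with hgs | hgs
      · exact hgs ((hmemF _).mpr ⟨h, hh, p + 1, by omega, by rw [pow_succ, mul_assoc]⟩)
      · refine hgs ((hmemF _).mpr ⟨h, hh, p - 1, by omega, ?_⟩)
        obtain ⟨q, rfl⟩ : ∃ q, p = q + 1 := ⟨p - 1, by omega⟩
        simp only [Nat.add_sub_cancel, pow_succ]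
        group
    · have h1 := hs' p hp
      rcases hgs with hgs | hgs
      · refine hgs ((hmemF _).mpr ⟨h * (t ^ p * s * (t ^ p)⁻¹), H.mul_mem hh h1, p, hp, ?_⟩)
        group
      · refine hgs ((hmemF _).mpr ⟨h * (t ^ p * s * (t ^ p)⁻¹)⁻¹, H.mul_mem hh (H.inv_mem h1), p,
          hp, ?_⟩)
        group
  have hb2 := (Finset.card_le_card hbd).trans (Finset.card_union_le _ _)
  have hb3 : (Hf.image (fun h => h * t ^ 0)).card ≤ Nat.card H :=
    Finset.card_image_le.trans_eq hcardH
  have hb4 : (Hf.image (fun h => h * t ^ (N - 1))).card ≤ Nat.card H :=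
    Finset.card_image_le.trans_eq hcardH
  rw [hcardF]
  calc n * (F.filter (fun g => ∃ s ∈ S, g * s ∉ F ∨ g * s⁻¹ ∉ F)).card
      ≤ n * (Nat.card H + Nat.card H) := Nat.mul_le_mul_left _ (hb2.trans (add_le_add hb3 hb4))
    _ = 2 * n * Nat.card H := by ring

end Folner

end Pool.Agent.AN90
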